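import Pool.Agent.helper4.NU.A6d

set_option autoImplicit false
set_option linter.all false

/-! Module A6: interior `H¹` regularity of very weak solutions. -/

open MeasureTheory Filter Topology Set
open scoped ContDiff Manifold Matrix ENNReal ComplexOrder

noncomputable section

namespace Pool.Agent.helper63.NU

variable {n : ℕ}

theorem locH1 {U : Set (E n)} (hU : IsOpen U) {ψ : E n → ℝ} (hψ : ContDiffOn ℝ ∞ ψ U)
    (hp : ∀ y ∈ U, (lev ψ y).PosDef) {r : E n → ℂ}
    (hr : ∀ K : Set (E n), IsCompact K → K ⊆ U → MemLp r 2 (volume.restrict K))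
    (h : ∀ u : E n → ℂ, ContDiff ℝ ∞ u → HasCompactSupport u → tsupport u ⊆ U →
      ∫ y in U, r y * (starRingEnd ℂ) (bx ψ u y) * (Real.exp (-ψ y) : ℂ) = 0)
    {χ : E n → ℝ} (hχ : ContDiff ℝ ∞ χ) (hχc : HasCompactSupport χ) (hχs : tsupport χ ⊆ U) :
    ∃ K : Set (E n), IsCompact K ∧ K ⊆ U ∧ ∃ u : ℕ → E n → ℂ,
      (∀ i, ContDiff ℝ ∞ (u i)) ∧ (∀ i, tsupport (u i) ⊆ K) ∧
      Tendsto (fun i => ∫ y, ‖u i y - χ y * r y‖ ^ 2) atTop (𝓝 0) ∧
      ∀ ε > 0, ∃ N, ∀ i ≥ N, ∀ i' ≥ N, ∀ j, ∫ y, ‖db j (u i) y - db j (u i') y‖ ^ 2 ≤ ε := by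
  obtain ⟨C, hC0, hker⟩ := A6.exists_ker n
  -- sets and cutoffs
  set K0 := tsupport χ with hK0
  have K0c : IsCompact K0 := hχc
  obtain ⟨δ, hδ, hδU⟩ := K0c.exists_cthickening_subset_open hU hχs
  set K1 := Metric.cthickening δ K0 with hK1
  have K1c : IsCompact K1 := K0c.cthickening
  have K01 : K0 ⊆ K1 := Metric.self_subset_cthickening _
  obtain ⟨K2, K2c, h12, h2U⟩ := exists_compact_between K1c hU hδU
  obtain ⟨g1, hg1, hg0, hg01⟩ := exists_contMDiffMap_one_nhds_of_subset_interior (n := (⊤ : ℕ∞))
    (modelWithCornersSelf ℝ (E n)) K1c.isClosed h12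
  set χ1 : E n → ℂ := fun z => ((g1 z : ℝ) : ℂ) with hχ1
  have χ1s : ContDiff ℝ ∞ χ1 := Complex.ofRealCLM.contDiff.comp (contMDiff_iff_contDiff.1 g1.contMDiff)
  have χ1t : tsupport χ1 ⊆ K2 := by
    apply closure_minimal _ K2c.isClosed
    intro z hz
    by_contra hzK
    apply hz
    show ((g1 z : ℝ) : ℂ) = 0
    rw [hg0 z hzK]
    simp
  have χ1c : HasCompactSupport χ1 := K2c.of_isClosed_subset (isClosed_tsupport _) χ1t
  have χ1one : ∀ y ∈ K1, χ1 y = 1 := by
    intro y hy
    have : g1 y = 1 := hg1.self_of_nhdsSet y hy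
    show ((g1 y : ℝ) : ℂ) = 1
    rw [this]
    simp
  set χc : E n → ℂ := fun z => (χ z : ℂ) with hχcdef
  have χcs : ContDiff ℝ ∞ χc := Complex.ofRealCLM.contDiff.comp hχ
  have χct : ∀ {z}, z ∉ K0 → χc z = 0 := by
    intro z hz
    show (χ z : ℂ) = 0
    rw [image_eq_zero_of_notMem_tsupport hz]
    simp
  have χctt : tsupport χc ⊆ K0 := by
    apply closure_minimal _ (isClosed_tsupport _)
    intro z hz
    by_contra hzK
    exact hz (χct hzK)
  have χcc : HasCompactSupport χc := K0c.of_isClosed_subset (isClosed_tsupport _) χctt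
  -- coefficients
  set B : Fin n → Fin n → E n → ℂ := fun j k z => (Real.exp (-ψ z) : ℂ) * (lev ψ z)⁻¹ j k with hB
  have Bs : ∀ j k, ContDiffOn ℝ ∞ (B j k) U := fun j k =>
    (Complex.ofRealCLM.contDiff.comp_contDiffOn (Real.contDiff_exp.comp_contDiffOn hψ.neg)).mul
      (contDiffOn_lev_inv hU hψ hp j k)
  set A : Fin n → Fin n → E n → ℂ := fun j k z => B j k z * χ1 z with hA
  have As : ∀ j k, ContDiff ℝ ∞ (A j k) := fun j k =>
    contDiff_mul_test hU (Bs j k) χ1s (χ1t.trans h2U)
  have Ac : ∀ j k, HasCompactSupport (A j k) := fun j k => χ1c.mul_left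
  obtain ⟨c0, hc0, hcoer⟩ := A6.coercive K1c (fun j k => (As j k).continuous) (by
    intro y hy ξ hξ
    have hpd := (hp y (hδU hy)).inv
    have hξ' : star ξ ≠ 0 := by simpa using hξ
    have h1 := hpd.dotProduct_mulVec_pos hξ'
    have h2 : star (star ξ) ⬝ᵥ (lev ψ y)⁻¹ *ᵥ star ξ =
        ∑ j, ∑ k, ξ j * ((lev ψ y)⁻¹ j k * (starRingEnd ℂ) (ξ k)) := by
      simp only [dotProduct, Matrix.mulVec, star_star, Pi.star_apply, Finset.mul_sum]
      rfl
    rw [h2] at h1
    have h3 : ∑ j, ∑ k, ξ j * (A j k y * (starRingEnd ℂ) (ξ k)) = ((Real.exp (-ψ y) : ℝ) : ℂ) *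
        ∑ j, ∑ k, ξ j * ((lev ψ y)⁻¹ j k * (starRingEnd ℂ) (ξ k)) := by
      rw [Finset.mul_sum]
      apply Finset.sum_congr rfl
      intro j _
      rw [Finset.mul_sum]
      apply Finset.sum_congr rfl
      intro k _
      simp only [hA, hB, χ1one y hy]
      ring
    rw [h3, Complex.re_ofReal_mul]
    exact mul_pos (Real.exp_pos _) (Complex.pos_iff.1 h1).1)
  -- the function `R`
  set R : E n → ℂ := K0.indicator r with hR
  have R2 : MemLp R 2 volume := (memLp_indicator_iff_restrict K0c.measurableSet).2 (hr K0 K0c hχs)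
  have hRχ : ∀ y, χc y * R y = (χ y : ℂ) * r y := by
    intro y
    by_cases hy : y ∈ K0
    · rw [hR, indicator_of_mem hy]
    · rw [χct hy]
      have : (χ y : ℂ) = 0 := χct hy
      rw [this]
      simp
  have hcsum : ∀ {F : Fin n → E n → ℂ}, (∀ l, HasCompactSupport (F l)) →
      HasCompactSupport (fun y => ∑ l, F l y) := by
    intro F hF
    have hKc : IsCompact (⋃ l, tsupport (F l)) := isCompact_iUnion fun l => hF l
    apply HasCompactSupport.intro hKc
    intro x hx
    apply Finset.sum_eq_zero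
    intro l _
    apply image_eq_zero_of_notMem_tsupport
    intro h
    exact hx (mem_iUnion.2 ⟨l, h⟩)
  have bs : ∀ j, ContDiff ℝ ∞ (fun y => ∑ k, A j k y * dz k χc y) := fun j =>
    ContDiff.sum fun k _ => (As j k).mul (contDiff_dz χcs k)
  have bc : ∀ j, HasCompactSupport (fun y => ∑ k, A j k y * dz k χc y) := fun j =>
    hcsum fun k => (A6.hasCompactSupport_dz χcc k).mul_left
  let d : A6.Data n :=
    { K := K1
      A := A
      χ := χc
      R := R
      a := fun x => ∑ j, db j (fun y => ∑ k, A j k y * dz k χc y) x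
      b := fun j x => ∑ k, A j k x * dz k χc x
      c := fun l x => ∑ j, db j χc x * A j l x
      c0 := c0
      Kc := K1c.isClosed
      As := As
      Ac := Ac
      χs := χcs
      χc := χcc
      as := ContDiff.sum fun j _ => contDiff_db (bs j) j
      ac := hcsum fun j => A6.hasCompactSupport_db (bc j) j
      bs := bs
      bc := bc
      cs := fun l => ContDiff.sum fun j _ => (contDiff_db χcs j).mul (As j l)
      cc := fun l => hcsum fun j => (Ac j l).mul_left
      R2 := R2
      c0pos := hc0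
      coer := hcoer
      weak := by
        intro V hV hVc
        have hv : ContDiff ℝ ∞ (fun z => χc z * V z) := χcs.mul hV
        have hvt : tsupport (fun z => χc z * V z) ⊆ K0 := by
          refine (closure_minimal ?_ (isClosed_tsupport _))
          intro z hz
          by_contra hzK
          apply hz
          show χc z * V z = 0
          rw [χct hzK, zero_mul]
        have hut : tsupport (fun z => (starRingEnd ℂ) (χc z * V z)) ⊆ K0 := by
          refine (closure_minimal ?_ (isClosed_tsupport _))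
          intro z hz
          by_contra hzK
          apply hz
          show (starRingEnd ℂ) (χc z * V z) = 0
          rw [χct hzK, zero_mul, map_zero]
        have key := h (fun z => (starRingEnd ℂ) (χc z * V z)) (A6.contDiff_conj hv)
          (K0c.of_isClosed_subset (isClosed_tsupport _) hut) (hut.trans hχs)
        have hdz0 : ∀ k z, z ∉ K0 → dz k (fun z => χc z * V z) z = 0 := by
          intro k z hz
          apply image_eq_zero_of_notMem_tsupport
          intro hh
          exact hz (hvt (tsupport_dz_subset _ k hh))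
        have hAv : ∀ j k, ∀ y ∈ U, A j k y * dz k (fun z => χc z * V z) y =
            (Real.exp (-ψ y) : ℂ) * (lev ψ y)⁻¹ j k * dz k (fun z => χc z * V z) y := by
          intro j k y hy
          by_cases hyK : y ∈ K0
          · simp only [hA, hB, χ1one y (K01 hyK), mul_one]
          · rw [hdz0 k y hyK, mul_zero, mul_zero]
        have hW0 : ∀ x, x ∉ K0 →
            ∑ j, db j (fun y => ∑ k, A j k y * dz k (fun z => χc z * V z) y) x = 0 := by
          intro x hx
          apply Finset.sum_eq_zero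
          intro j _
          apply image_eq_zero_of_notMem_tsupport
          intro hh
          apply hx
          refine (closure_minimal ?_ (isClosed_tsupport χ)) (tsupport_db_subset _ j hh)
          intro z hz
          by_contra hzK
          apply hz
          apply Finset.sum_eq_zero
          intro k _
          rw [hdz0 k z hzK, mul_zero]
        calc _ = ∫ x, R x * ∑ j, db j (fun y => ∑ k, A j k y * dz k (fun z => χc z * V z) y) x := by
              apply integral_congr_ae
              filter_upwards with x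
              rw [A6.prod_rule As χcs hV x]
          _ = ∫ x, U.indicator (fun x => -(r x * (starRingEnd ℂ)
                (bx ψ (fun z => (starRingEnd ℂ) (χc z * V z)) x) * (Real.exp (-ψ x) : ℂ))) x := by
              apply integral_congr_ae
              filter_upwards with x
              by_cases hx : x ∈ U
              · rw [indicator_of_mem hx]
                by_cases hxK : x ∈ K0
                · rw [hR, indicator_of_mem hxK, A6.bx_form hU hp hAv hx]
                  ring
                · have h5 := A6.bx_form hU hp hAv hx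
                  rw [hW0 x hxK] at h5
                  rw [hR, indicator_of_notMem hxK, zero_mul, mul_assoc, ← mul_neg, ← h5, mul_zero]
              · rw [indicator_of_notMem hx, hW0 x (fun hh => hx (hχs hh)), mul_zero]
          _ = 0 := by
              rw [integral_indicator hU.measurableSet, integral_neg, key, neg_zero] }
  obtain ⟨S0, hS0⟩ := A6.energy d hC0
  -- the mollified functions
  set rt : E n → ℂ := fun x => χc x * R x with hrt
  have rt0 : ∀ y, y ∉ K0 → rt y = 0 := fun y hy => by
    show χc y * R y = 0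
    rw [χct hy, zero_mul]
  obtain ⟨Mχ, hMχ⟩ := χcs.continuous.bounded_above_of_compact_support χcc
  have rt2 : MemLp rt 2 volume := by
    apply R2.of_le_mul (χcs.continuous.aestronglyMeasurable.mul R2.1) (c := Mχ)
    filter_upwards with x
    show ‖χc x * R x‖ ≤ _
    rw [norm_mul]
    exact mul_le_mul_of_nonneg_right (hMχ x) (norm_nonneg _)
  have rtI : Integrable rt volume := by
    have := A6.R_mul_int R2 χcs.continuous χcc
    refine this.congr ?_
    filter_upwards with x
    show _ = χc x * R x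
    ring
  set ε : ℕ → ℝ := fun i => δ / (i + 1) with hε
  have εpos : ∀ i, 0 < ε i := fun i => by rw [hε]; positivity
  have εle : ∀ i, ε i ≤ δ := fun i => by
    rw [hε]
    apply div_le_self hδ.le
    have : (0:ℝ) ≤ i := Nat.cast_nonneg i
    linarith
  have εlim : Tendsto ε atTop (𝓝 0) := tendsto_const_div_atTop_nhds_zero_nat δ |>.comp
    (tendsto_add_atTop_nat 1) |>.congr (fun i => by simp [hε])
  choose k hk using fun i => hker (ε i) (εpos i)
  set x : ℕ → E n → ℂ := fun i => A6.cw (A6.kc (k i)) rt with hx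
  have xs : ∀ i, ContDiff ℝ ∞ (x i) := fun i =>
    A6.contDiff_cw (hk i).contDiff (hk i).hcs' rtI.locallyIntegrable
  have x0 : ∀ i, ∀ y, y ∉ K1 → x i y = 0 := fun i y hy =>
    A6.support_cw (hk i) rt0 (fun hh => hy (Metric.cthickening_mono (εle i) _ hh))
  have ts : ∀ {f : E n → ℂ}, (∀ y, y ∉ K1 → f y = 0) → tsupport f ⊆ K1 := by
    intro f hf
    apply closure_minimal _ K1c.isClosed
    intro z hz
    by_contra hzK
    exact hz (hf z hzK)
  have hcs : ∀ {f : E n → ℂ}, (∀ y, y ∉ K1 → f y = 0) → HasCompactSupport f := fun hf =>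
    K1c.of_isClosed_subset (isClosed_tsupport _) (ts hf)
  have hxB : ∀ i, ∑ j, ∫ y, ‖db j (x i) y‖ ^ 2 ≤ S0 := fun i =>
    hS0 (ε i) (k i) (hk i) (ts (x0 i)) (hcs (x0 i))
  have hxlim := A6.cw_tendsto hk εlim rt2
  -- convex combinations
  set S : Set (E n → ℂ) := {f | ContDiff ℝ ∞ f ∧ ∀ y, y ∉ K1 → f y = 0} with hS
  have hSc : Convex ℝ S := by
    intro f hf g hg a b ha hb hab
    refine ⟨(contDiff_const.smul hf.1).add (contDiff_const.smul hg.1), fun y hy => ?_⟩
    simp [hf.2 y hy, hg.2 y hy]
  have l2 : ∀ {f : E n → ℂ}, f ∈ S → MemLp f 2 volume := fun hf =>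
    A6.memLp_of_test hf.1.continuous (hcs hf.2)
  have dbm : ∀ {f : E n → ℂ}, f ∈ S → ∀ j, MemLp (db j f) 2 volume := fun hf j =>
    A6.memLp_of_test (contDiff_db hf.1 j).continuous (A6.hasCompactSupport_db (hcs hf.2) j)
  let q : (E n → ℂ) → ℝ := fun f => ∑ j, ∫ y, ‖db j f y‖ ^ 2
  have hq : ∀ v ∈ S, ∀ w ∈ S,
      q (v - w) = 2 * q v + 2 * q w - 4 * q ((1/2 : ℝ) • v + (1/2 : ℝ) • w) := by
    intro v hv w hw
    have hvd : ∀ y, DifferentiableAt ℝ v y := fun y => hv.1.differentiable (by simp) y
    have hwd : ∀ y, DifferentiableAt ℝ w y := fun y => hw.1.differentiable (by simp) y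
    have e1 : ∀ j y, db j (v - w) y = db j v y - db j w y := fun j y => db_sub (hvd y) (hwd y) j
    have e2 : ∀ j y, db j ((1/2 : ℝ) • v + (1/2 : ℝ) • w) y = (1/2 : ℂ) * (db j v y + db j w y) := by
      intro j y
      have : ((1/2 : ℝ) • v + (1/2 : ℝ) • w) = fun z => (1/2 : ℂ) * (v z + w z) := by
        ext z
        simp only [Pi.add_apply, Pi.smul_apply, Complex.real_smul]
        push_cast
        ring
      rw [this, db_const_mul, db_add (hvd y) (hwd y)]
    simp only [q]
    simp_rw [e1, e2]
    rw [Finset.mul_sum, Finset.mul_sum, Finset.mul_sum, ← Finset.sum_add_distrib,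
      ← Finset.sum_sub_distrib]
    apply Finset.sum_congr rfl
    intro j _
    have i1 := A6.integrable_sq (dbm hv j)
    have i2 := A6.integrable_sq (dbm hw j)
    have i3 := A6.integrable_sq ((dbm hv j).add (dbm hw j))
    have i4 := A6.integrable_sq ((dbm hv j).sub (dbm hw j))
    have e3 : ∀ y, ‖db j v y - db j w y‖ ^ 2 = (2 * ‖db j v y‖ ^ 2 + 2 * ‖db j w y‖ ^ 2)
        - 4 * ‖(1/2 : ℂ) * (db j v y + db j w y)‖ ^ 2 := by
      intro y
      rw [norm_mul, mul_pow]
      have p := parallelogram_law_with_norm ℝ (db j v y) (db j w y)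
      have : ‖(1/2 : ℂ)‖ = 1/2 := by norm_num
      rw [this]
      nlinarith
    simp_rw [e3]
    have i5 : Integrable (fun y => ‖(1/2 : ℂ) * (db j v y + db j w y)‖ ^ 2) volume := by
      have := i3.const_mul ((1/2 : ℝ) ^ 2)
      refine this.congr ?_
      filter_upwards with y
      rw [norm_mul, mul_pow]
      have : ‖(1/2 : ℂ)‖ = 1/2 := by norm_num
      rw [this]
      rfl
    rw [integral_sub (f := fun y => 2 * ‖db j v y‖ ^ 2 + 2 * ‖db j w y‖ ^ 2)
      ((i1.const_mul 2).add (i2.const_mul 2)) (i5.const_mul 4),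
      integral_add (i1.const_mul 2) (i2.const_mul 2), integral_const_mul, integral_const_mul,
      integral_const_mul]
  have q0 : ∀ v, 0 ≤ q v := fun v => Finset.sum_nonneg fun j _ => integral_nonneg fun y => by positivity
  obtain ⟨u, hu1, hu2⟩ := A6.convex_cauchy q x S hSc (fun i => ⟨xs i, x0 i⟩) q0 hq S0 hxB
  have huS : ∀ m, u m ∈ S := fun m => (convexHull_min (by
    rintro _ ⟨i, _, rfl⟩; exact ⟨xs i, x0 i⟩) hSc) (hu1 m)
  refine ⟨K1, K1c, hδU, u, fun i => (huS i).1, fun i => ts (huS i).2, ?_, ?_⟩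
  · -- `L²` convergence
    have e1 : ∀ i, ∫ y, ‖u i y - χ y * r y‖ ^ 2 = ∫ y, ‖u i y - rt y‖ ^ 2 := by
      intro i
      apply integral_congr_ae
      filter_upwards with y
      rw [← hRχ y]
    simp_rw [e1]
    rw [Metric.tendsto_atTop]
    intro η hη
    obtain ⟨N, hN⟩ := Metric.tendsto_atTop.1 hxlim (η / 2) (by positivity)
    refine ⟨N, fun m hm => ?_⟩
    rw [Real.dist_eq, sub_zero, abs_of_nonneg (integral_nonneg fun y => by positivity)]
    have hconv : Convex ℝ {f : E n → ℂ | f ∈ S ∧ ∫ y, ‖f y - rt y‖ ^ 2 ≤ η / 2} := by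
      intro f hf g hg a b ha hb hab
      refine ⟨hSc hf.1 hg.1 ha hb hab, ?_⟩
      have i1 := A6.integrable_sq ((l2 hf.1).sub rt2)
      have i2 := A6.integrable_sq ((l2 hg.1).sub rt2)
      have i3 := A6.integrable_sq ((l2 (hSc hf.1 hg.1 ha hb hab)).sub rt2)
      calc ∫ y, ‖(a • f + b • g) y - rt y‖ ^ 2 ≤ ∫ y, (a * ‖f y - rt y‖ ^ 2 + b * ‖g y - rt y‖ ^ 2) := by
            apply integral_mono i3 ((i1.const_mul a).add (i2.const_mul b))
            intro y
            have e5 : (a • f + b • g) y - rt y = (a : ℂ) * (f y - rt y) + (b : ℂ) * (g y - rt y) := by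
              simp only [Pi.add_apply, Pi.smul_apply, Complex.real_smul]
              have : (a : ℂ) + b = 1 := by exact_mod_cast hab
              linear_combination (rt y) * this
            have e6 : ‖(a : ℂ) * (f y - rt y) + (b : ℂ) * (g y - rt y)‖ ≤
                a * ‖f y - rt y‖ + b * ‖g y - rt y‖ := by
              refine (norm_add_le _ _).trans (le_of_eq ?_)
              rw [norm_mul, norm_mul, Complex.norm_real, Complex.norm_real, Real.norm_of_nonneg ha,
                Real.norm_of_nonneg hb]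
            show ‖(a • f + b • g) y - rt y‖ ^ 2 ≤ a * ‖f y - rt y‖ ^ 2 + b * ‖g y - rt y‖ ^ 2
            rw [e5]
            refine (pow_le_pow_left₀ (norm_nonneg _) e6 2).trans ?_
            have hb' : b = 1 - a := by linarith
            subst hb'
            nlinarith [mul_nonneg (mul_nonneg ha hb) (sq_nonneg (‖f y - rt y‖ - ‖g y - rt y‖))]
        _ = a * (∫ y, ‖f y - rt y‖ ^ 2) + b * ∫ y, ‖g y - rt y‖ ^ 2 := by
            rw [← integral_const_mul, ← integral_const_mul]
            exact integral_add (i1.const_mul a) (i2.const_mul b)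
        _ ≤ a * (η / 2) + b * (η / 2) := by
            have h7 := mul_le_mul_of_nonneg_left hf.2 ha
            have h8 := mul_le_mul_of_nonneg_left hg.2 hb
            linarith
        _ = η / 2 := by rw [← add_mul, hab, one_mul]
    have := (convexHull_min (s := x '' Ici m) (by
      rintro _ ⟨i, hi, rfl⟩
      refine ⟨⟨xs i, x0 i⟩, ?_⟩
      have h6 := hN i (le_trans hm hi)
      rw [Real.dist_eq, sub_zero, abs_of_nonneg (integral_nonneg fun y => by positivity)] at h6
      exact h6.le) hconv) (hu1 m)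
    linarith [this.2]
  · intro η hη
    obtain ⟨N, hN⟩ := hu2 η hη
    refine ⟨N, fun i hi i' hi' j => ?_⟩
    refine le_trans ?_ (hN i hi i' hi')
    have e1 : ∀ y, db j (u i) y - db j (u i') y = db j (u i - u i') y := fun y =>
      (db_sub ((huS i).1.differentiable (by simp) y) ((huS i').1.differentiable (by simp) y) j).symm
    simp_rw [e1]
    exact Finset.single_le_sum (f := fun j => ∫ y, ‖db j (u i - u i') y‖ ^ 2)
      (fun j _ => integral_nonneg fun y => by positivity) (Finset.mem_univ j)

end Pool.Agent.helper63.NU
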