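import Pool.Agent.helper41.NU.A1
import Pool.Agent.helper41.NU.A2
import Pool.Agent.helper41.NU.A3

set_option autoImplicit false
set_option linter.all false

/-! Module A6, part a: convolutions on `ℂ^n` in `L²`. -/

open MeasureTheory Filter Topology Set
open scoped ContDiff Manifold Matrix ENNReal ComplexOrder

noncomputable section

namespace Pool.Agent.helper63.NU

namespace A6

variable {n : ℕ}

/-- Cauchy-Schwarz with a weight -/
theorem lint_cs {X : Type*} [MeasurableSpace X] (μ : Measure X) (κ g : X → ℝ≥0∞)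
    (hκ : AEMeasurable κ μ) (hg : AEMeasurable g μ) :
    (∫⁻ y, κ y * g y ∂μ) ^ 2 ≤ (∫⁻ y, κ y ∂μ) * ∫⁻ y, κ y * g y ^ 2 ∂μ := by
  have h1 := ENNReal.lintegral_mul_le_Lp_mul_Lq μ Real.HolderConjugate.two_two
    (f := fun y => κ y ^ (1/2 : ℝ)) (g := fun y => κ y ^ (1/2 : ℝ) * g y)
    (hκ.pow_const _) ((hκ.pow_const _).mul hg)
  have e1 : ∀ y, ((fun y => κ y ^ (1/2 : ℝ)) * (fun y => κ y ^ (1/2 : ℝ) * g y)) y = κ y * g y := by
    intro y
    simp only [Pi.mul_apply]
    rw [← mul_assoc, ← ENNReal.rpow_add_of_nonneg _ _ (by norm_num) (by norm_num)]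
    norm_num
  have e2 : ∀ y, (κ y ^ (1/2 : ℝ)) ^ (2:ℝ) = κ y := by
    intro y
    rw [← ENNReal.rpow_mul]; norm_num
  have e3 : ∀ y, (κ y ^ (1/2 : ℝ) * g y) ^ (2:ℝ) = κ y * g y ^ 2 := by
    intro y
    rw [ENNReal.mul_rpow_of_nonneg _ _ (by norm_num), e2]
    norm_num
  simp_rw [e1, e2, e3] at h1
  calc (∫⁻ y, κ y * g y ∂μ) ^ 2 ≤ ((∫⁻ y, κ y ∂μ) ^ (1 / (2:ℝ)) *
        (∫⁻ y, κ y * g y ^ 2 ∂μ) ^ (1 / (2:ℝ))) ^ 2 := by gcongr
    _ = _ := by
      rw [mul_pow, ← ENNReal.rpow_natCast, ← ENNReal.rpow_natCast, ← ENNReal.rpow_mul,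
        ← ENNReal.rpow_mul]
      norm_num

/-- Young's inequality `L¹ * L² ⊆ L²` -/
theorem lint_young (κ g : E n → ℝ≥0∞) (hκ : Measurable κ) (hg : AEMeasurable g volume) :
    ∫⁻ x, (∫⁻ y, κ (x - y) * g y) ^ 2 ≤ (∫⁻ z, κ z) ^ 2 * ∫⁻ y, g y ^ 2 := by
  have h1 : ∀ x : E n, (∫⁻ y, κ (x - y) * g y) ^ 2 ≤ (∫⁻ z, κ z) * ∫⁻ y, κ (x - y) * g y ^ 2 := by
    intro x
    have := lint_cs volume (fun y => κ (x - y)) g (by fun_prop) hg
    rwa [lintegral_sub_left_eq_self (fun z => κ z) x] at this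
  calc ∫⁻ x, (∫⁻ y, κ (x - y) * g y) ^ 2 ≤ ∫⁻ x, (∫⁻ z, κ z) * ∫⁻ y, κ (x - y) * g y ^ 2 :=
        lintegral_mono h1
    _ = (∫⁻ z, κ z) * ∫⁻ x, ∫⁻ y, κ (x - y) * g y ^ 2 := by
        apply lintegral_const_mul''
        refine AEMeasurable.lintegral_prod_right' (f := fun p : E n × E n => κ (p.1 - p.2) * g p.2 ^ 2) ?_
        refine AEMeasurable.mul (by fun_prop) ?_
        exact (hg.comp_snd).pow_const 2
    _ = (∫⁻ z, κ z) * ∫⁻ y, ∫⁻ x, κ (x - y) * g y ^ 2 := by
        rw [lintegral_lintegral_swap]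
        refine AEMeasurable.mul (by fun_prop) ?_
        exact (hg.comp_snd).pow_const 2
    _ = (∫⁻ z, κ z) * ∫⁻ y, (∫⁻ z, κ z) * g y ^ 2 := by
        congr 1
        apply lintegral_congr
        intro y
        rw [lintegral_mul_const _ (by fun_prop), lintegral_sub_right_eq_self (fun z => κ z) y]
    _ = _ := by
        rw [lintegral_const_mul'' _ (hg.pow_const 2), ← mul_assoc, sq]

/-- convolution -/
def cw (κ f : E n → ℂ) (x : E n) : ℂ := ∫ y, κ (x - y) * f y

theorem cw_eq (κ f : E n → ℂ) : cw κ f = convolution κ f (ContinuousLinearMap.mul ℝ ℂ) volume := by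
  ext x
  rw [convolution_eq_swap]
  rfl

theorem cw_comm (κ f : E n → ℂ) : cw κ f = cw f κ := by
  ext x
  unfold cw
  rw [← integral_sub_left_eq_self (fun y => κ (x - y) * f y) volume x]
  apply integral_congr_ae
  filter_upwards with y
  simp [mul_comm]

theorem contDiff_cw {κ f : E n → ℂ} (hκ : ContDiff ℝ ∞ κ) (hc : HasCompactSupport κ)
    (hf : LocallyIntegrable f volume) : ContDiff ℝ ∞ (cw κ f) := by
  rw [cw_eq]
  exact hc.contDiff_convolution_left _ hκ hf

theorem contDiff_cw' {κ f : E n → ℂ} (hf : ContDiff ℝ ∞ f) (hc : HasCompactSupport f)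
    (hκ : LocallyIntegrable κ volume) : ContDiff ℝ ∞ (cw κ f) := by
  rw [cw_comm]
  exact contDiff_cw hf hc hκ

theorem hasCompactSupport_cw {κ f : E n → ℂ} (hκ : HasCompactSupport κ) (hf : HasCompactSupport f) :
    HasCompactSupport (cw κ f) := by
  rw [cw_eq]
  exact HasCompactSupport.convolution (ContinuousLinearMap.mul ℝ ℂ) hκ hf

open Pointwise in
theorem support_cw_subset (κ f : E n → ℂ) :
    Function.support (cw κ f) ⊆ Function.support κ + Function.support f := by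
  rw [cw_eq]
  exact support_convolution_subset _

theorem fderiv_cw {κ f : E n → ℂ} (hf : ContDiff ℝ ∞ f) (hc : HasCompactSupport f)
    (hκ : LocallyIntegrable κ volume) (x v : E n) :
    fderiv ℝ (cw κ f) x v = cw κ (fun z => fderiv ℝ f z v) x := by
  rw [cw_eq, (hc.hasFDerivAt_convolution_right (ContinuousLinearMap.mul ℝ ℂ) hκ
    (hf.of_le (by exact_mod_cast le_top)) x).fderiv]
  rw [convolution_precompR_apply (ContinuousLinearMap.mul ℝ ℂ) hκ (hc.fderiv ℝ)
    (hf.continuous_fderiv (by simp)), cw_eq]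

theorem integrable_cw_aux {κ f : E n → ℂ} (hf : Continuous f) (hc : HasCompactSupport f)
    (hκ : LocallyIntegrable κ volume) (x : E n) : Integrable (fun y => κ (x - y) * f y) volume := by
  have h := hc.convolutionExists_right (ContinuousLinearMap.mul ℝ ℂ) hκ hf x
  exact (convolutionExistsAt_iff_integrable_swap).1 h

theorem dz_cw {κ f : E n → ℂ} (hf : ContDiff ℝ ∞ f) (hc : HasCompactSupport f)
    (hκ : LocallyIntegrable κ volume) (j : Fin n) (x : E n) :
    dz j (cw κ f) x = cw κ (dz j f) x := by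
  unfold dz
  rw [fderiv_cw hf hc hκ, fderiv_cw hf hc hκ]
  unfold cw
  have i1 : ∀ v : E n, Integrable (fun y => κ (x - y) * fderiv ℝ f y v) volume := by
    intro v
    apply integrable_cw_aux _ _ hκ
    · exact (hf.continuous_fderiv (by simp)).clm_apply continuous_const
    · exact (hc.fderiv_apply (𝕜 := ℝ) v)
  rw [← integral_const_mul, ← integral_sub (i1 _) ((i1 _).const_mul _), ← integral_div]
  apply integral_congr_ae
  filter_upwards with y
  ring

theorem db_cw {κ f : E n → ℂ} (hf : ContDiff ℝ ∞ f) (hc : HasCompactSupport f)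
    (hκ : LocallyIntegrable κ volume) (j : Fin n) (x : E n) :
    db j (cw κ f) x = cw κ (db j f) x := by
  unfold db
  rw [fderiv_cw hf hc hκ, fderiv_cw hf hc hκ]
  unfold cw
  have i1 : ∀ v : E n, Integrable (fun y => κ (x - y) * fderiv ℝ f y v) volume := by
    intro v
    apply integrable_cw_aux _ _ hκ
    · exact (hf.continuous_fderiv (by simp)).clm_apply continuous_const
    · exact (hc.fderiv_apply (𝕜 := ℝ) v)
  rw [← integral_const_mul, ← integral_add (i1 _) ((i1 _).const_mul _), ← integral_div]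
  apply integral_congr_ae
  filter_upwards with y
  ring

/-- transposition: for an even kernel, `∫ (κ * f) G = ∫ f (κ * G)` -/
theorem integral_cw_mul {κ f G : E n → ℂ} (hκ : Continuous κ) (hκc : HasCompactSupport κ)
    (hev : ∀ z, κ (-z) = κ z) (hf : Integrable f volume) (hG : Integrable G volume) :
    ∫ x, cw κ f x * G x = ∫ x, f x * cw κ G x := by
  obtain ⟨C, hC⟩ := hκ.bounded_above_of_compact_support hκc
  have hI : Integrable (fun p : E n × E n => κ (p.1 - p.2) * (G p.1 * f p.2)) (volume.prod volume) := by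
    apply Integrable.bdd_mul (c := C) (hG.mul_prod hf)
    · exact (hκ.comp (continuous_fst.sub continuous_snd)).aestronglyMeasurable
    · filter_upwards with p
      exact hC _
  calc ∫ x, cw κ f x * G x = ∫ x, ∫ y, κ (x - y) * (G x * f y) := by
        apply integral_congr_ae
        filter_upwards with x
        unfold cw
        rw [← integral_mul_const]
        apply integral_congr_ae
        filter_upwards with y
        ring
    _ = ∫ y, ∫ x, κ (x - y) * (G x * f y) := integral_integral_swap hI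
    _ = _ := by
        apply integral_congr_ae
        filter_upwards with y
        unfold cw
        rw [← integral_const_mul]
        apply integral_congr_ae
        filter_upwards with x
        rw [← hev (y - x), neg_sub]
        ring

/-- passing from `lintegral` to `integral` -/
theorem sq_le_of_lint {F G : E n → ℂ} {D : ℝ} (hD : 0 ≤ D) (hF : AEStronglyMeasurable F volume)
    (hG : MemLp G 2 volume)
    (h : ∫⁻ x, ‖F x‖ₑ ^ 2 ≤ ENNReal.ofReal D * ∫⁻ x, ‖G x‖ₑ ^ 2) :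
    MemLp F 2 volume ∧ ∫ x, ‖F x‖ ^ 2 ≤ D * ∫ x, ‖G x‖ ^ 2 := by
  have conv : ∀ {H : E n → ℂ}, AEStronglyMeasurable H volume →
      ∫ x, ‖H x‖ ^ 2 = (∫⁻ x, ‖H x‖ₑ ^ 2).toReal := by
    intro H hH
    rw [integral_eq_lintegral_of_nonneg_ae (f := fun x => ‖H x‖ ^ 2)
      (ae_of_all _ fun x => by positivity) (hH.norm.pow 2)]
    congr 1
    apply lintegral_congr
    intro x
    rw [ENNReal.ofReal_pow (norm_nonneg _), ofReal_norm]
  have fin : ∀ {H : E n → ℂ}, AEStronglyMeasurable H volume →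
      (MemLp H 2 volume ↔ ∫⁻ x, ‖H x‖ₑ ^ 2 < ⊤) := by
    intro H hH
    rw [memLp_two_iff_integrable_sq_norm hH]
    constructor
    · intro h
      have := h.2
      refine lt_of_le_of_lt (le_of_eq ?_) this
      apply lintegral_congr
      intro x
      simp
    · intro h
      refine ⟨hH.norm.pow 2, ?_⟩
      refine lt_of_le_of_lt (le_of_eq ?_) h
      apply lintegral_congr
      intro x
      simp
  have hGf := (fin hG.1).1 hG
  have hFf : ∫⁻ x, ‖F x‖ₑ ^ 2 < ⊤ := lt_of_le_of_lt h (ENNReal.mul_lt_top ENNReal.ofReal_lt_top hGf)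
  refine ⟨(fin hF).2 hFf, ?_⟩
  rw [conv hF, conv hG.1]
  have := ENNReal.toReal_mono (ENNReal.mul_lt_top ENNReal.ofReal_lt_top hGf).ne h
  rwa [ENNReal.toReal_mul, ENNReal.toReal_ofReal hD] at this

/-- Young's inequality, version used below -/
theorem young_of_le {F G : E n → ℂ} {κ : E n → ℝ} (hκ : Continuous κ) (hκc : HasCompactSupport κ)
    (hκ0 : ∀ z, 0 ≤ κ z) {D : ℝ} (hD : ∫ z, κ z ≤ D) (hF : AEStronglyMeasurable F volume)
    (hG : MemLp G 2 volume)
    (h : ∀ x, ‖F x‖ₑ ≤ ∫⁻ y, ENNReal.ofReal (κ (x - y)) * ‖G y‖ₑ) :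
    MemLp F 2 volume ∧ ∫ x, ‖F x‖ ^ 2 ≤ D ^ 2 * ∫ x, ‖G x‖ ^ 2 := by
  have hD0 : 0 ≤ D := le_trans (integral_nonneg hκ0) hD
  apply sq_le_of_lint (by positivity) hF hG
  have h1 : ∫⁻ z, ENNReal.ofReal (κ z) ≤ ENNReal.ofReal D := by
    rw [← ofReal_integral_eq_lintegral_ofReal (hκ.integrable_of_hasCompactSupport hκc)
      (ae_of_all _ hκ0)]
    exact ENNReal.ofReal_le_ofReal hD
  calc ∫⁻ x, ‖F x‖ₑ ^ 2 ≤ ∫⁻ x, (∫⁻ y, ENNReal.ofReal (κ (x - y)) * ‖G y‖ₑ) ^ 2 := by
        apply lintegral_mono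
        intro x
        exact pow_le_pow_left' (h x) 2
    _ ≤ (∫⁻ z, ENNReal.ofReal (κ z)) ^ 2 * ∫⁻ y, ‖G y‖ₑ ^ 2 :=
        lint_young (fun z => ENNReal.ofReal (κ z)) (fun y => ‖G y‖ₑ) (by fun_prop) hG.1.enorm
    _ ≤ (ENNReal.ofReal D) ^ 2 * ∫⁻ y, ‖G y‖ₑ ^ 2 := by gcongr
    _ = _ := by rw [ENNReal.ofReal_pow hD0]

end A6

end Pool.Agent.helper63.NU
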