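import Pool.Agent.helper4.NU.A6a

set_option autoImplicit false
set_option linter.all false

/-! Module A6, part b: mollifiers and Friedrichs commutators. -/

open MeasureTheory Filter Topology Set
open scoped ContDiff Manifold Matrix ENNReal ComplexOrder

noncomputable section

namespace Pool.Agent.helper63.NU

namespace A6

variable {n : ℕ}

/-- complex version of a real kernel -/
def kc (k : E n → ℝ) (z : E n) : ℂ := (k z : ℂ)

/-- mollifiers -/
structure Ker (C ε : ℝ) (k : E n → ℝ) : Prop where
  smooth : ContDiff ℝ ∞ k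
  nonneg : ∀ z, 0 ≤ k z
  even : ∀ z, k (-z) = k z
  supp : ∀ z, ε < ‖z‖ → k z = 0
  int : ∫ z, k z = 1
  der : ∀ j, ∫ z, ‖z‖ * ‖db j (kc k) z‖ ≤ C

theorem db_comp_smul (f : E n → ℂ) (a : ℝ) (j : Fin n) (z : E n) :
    db j (fun y => f (a • y)) z = a * db j f (a • z) := by
  unfold db
  rw [fderiv_comp_smul]
  simp only [ContinuousLinearMap.smul_apply, Complex.real_smul]
  ring

theorem exists_ker (n : ℕ) : ∃ C : ℝ, 0 ≤ C ∧ ∀ ε > 0, ∃ k : E n → ℝ, Ker C ε k := by
  let φ : ContDiffBump (0 : E n) := ⟨1/2, 1, by norm_num, by norm_num⟩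
  let ρ : E n → ℝ := φ.normed volume
  have hρs : ContDiff ℝ ∞ ρ := φ.contDiff_normed
  refine ⟨∑ j, ∫ z, ‖z‖ * ‖db j (kc ρ) z‖, ?_, ?_⟩
  · exact Finset.sum_nonneg fun j _ => integral_nonneg fun z => by positivity
  intro ε hε
  set d := Module.finrank ℝ (E n)
  set c : ℝ := |((ε⁻¹) ^ d)⁻¹| with hc
  have hc0 : 0 < c := by rw [hc]; positivity
  have hk : kc (fun z => c⁻¹ * ρ (ε⁻¹ • z)) = fun z : E n => ((c⁻¹ : ℝ) : ℂ) * (kc ρ) (ε⁻¹ • z) := by
    ext z; simp [kc]
  refine ⟨fun z => c⁻¹ * ρ (ε⁻¹ • z), ?_, ?_, ?_, ?_, ?_, ?_⟩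
  · exact contDiff_const.mul (hρs.comp (contDiff_const_smul _))
  · intro z
    exact mul_nonneg (by positivity) (φ.nonneg_normed _)
  · intro z
    simp only [smul_neg]
    rw [show ρ (-(ε⁻¹ • z)) = ρ (ε⁻¹ • z) from φ.normed_neg _]
  · intro z hz
    have : ε⁻¹ • z ∉ Function.support ρ := by
      rw [show Function.support ρ = Metric.ball 0 φ.rOut from φ.support_normed_eq]
      simp only [Metric.mem_ball, dist_zero_right, not_lt, norm_smul, norm_inv, Real.norm_eq_abs,
        abs_of_pos hε]
      show (1:ℝ) ≤ ε⁻¹ * ‖z‖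
      rw [inv_mul_eq_div, le_div_iff₀ hε]
      linarith
    rw [Function.notMem_support] at this
    rw [this, mul_zero]
  · rw [integral_const_mul, Measure.integral_comp_smul volume ρ ε⁻¹]
    rw [show ∫ x, ρ x = 1 from φ.integral_normed]
    rw [smul_eq_mul, mul_one]
    exact inv_mul_cancel₀ hc0.ne'
  · intro j
    have h1 : ∀ z : E n, ‖z‖ * ‖db j (kc (fun z => c⁻¹ * ρ (ε⁻¹ • z))) z‖
        = c⁻¹ * (fun y : E n => ‖y‖ * ‖db j (kc ρ) y‖) (ε⁻¹ • z) := by
      intro z
      rw [hk, db_const_mul, db_comp_smul]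
      simp only [norm_mul, norm_smul, Complex.norm_real, Real.norm_eq_abs, norm_inv]
      rw [abs_of_pos hε, abs_of_pos hc0]
      ring
    simp_rw [h1]
    rw [integral_const_mul, Measure.integral_comp_smul volume
      (fun y : E n => ‖y‖ * ‖db j (kc ρ) y‖) ε⁻¹, smul_eq_mul, ← hc, ← mul_assoc,
      inv_mul_cancel₀ hc0.ne', one_mul]
    exact Finset.single_le_sum (f := fun j => ∫ z, ‖z‖ * ‖db j (kc ρ) z‖)
      (fun j _ => integral_nonneg fun z => by positivity) (Finset.mem_univ j)

namespace Ker

variable {C ε : ℝ} {k : E n → ℝ}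

theorem contDiff (hk : Ker C ε k) : ContDiff ℝ ∞ (kc k) :=
  Complex.ofRealCLM.contDiff.comp hk.smooth

theorem hcs (hk : Ker C ε k) : HasCompactSupport k := by
  apply HasCompactSupport.of_support_subset_isCompact (isCompact_closedBall (0 : E n) ε)
  intro z hz
  simp only [Metric.mem_closedBall, dist_zero_right]
  by_contra h
  exact hz (hk.supp z (not_le.1 h))

theorem hcs' (hk : Ker C ε k) : HasCompactSupport (kc k) :=
  hk.hcs.comp_left (g := fun x : ℝ => (x : ℂ)) (by simp)

theorem intble (hk : Ker C ε k) : Integrable k volume :=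
  hk.smooth.continuous.integrable_of_hasCompactSupport hk.hcs

theorem intble' (hk : Ker C ε k) : Integrable (kc k) volume :=
  hk.contDiff.continuous.integrable_of_hasCompactSupport hk.hcs'

theorem even' (hk : Ker C ε k) (z : E n) : kc k (-z) = kc k z := by
  unfold kc; rw [hk.even]

theorem enorm (hk : Ker C ε k) (z : E n) : ‖kc k z‖ₑ = ENNReal.ofReal (k z) := by
  unfold kc
  rw [← ofReal_norm, Complex.norm_real, Real.norm_of_nonneg (hk.nonneg z)]

end Ker

theorem memLp_two_locallyIntegrable {f : E n → ℂ} (hf : MemLp f 2 volume) :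
    LocallyIntegrable f volume := hf.locallyIntegrable (by norm_num)

/-- mollification is a contraction of `L²` -/
theorem cw_sq_le {C ε : ℝ} {k : E n → ℝ} (hk : Ker C ε k) {f : E n → ℂ} (hf : MemLp f 2 volume) :
    MemLp (cw (kc k) f) 2 volume ∧ ∫ x, ‖cw (kc k) f x‖ ^ 2 ≤ ∫ x, ‖f x‖ ^ 2 := by
  have h := young_of_le (F := cw (kc k) f) (G := f) hk.smooth.continuous hk.hcs hk.nonneg
    (D := 1) hk.int.le
    (contDiff_cw hk.contDiff hk.hcs' (memLp_two_locallyIntegrable hf)).continuous.aestronglyMeasurable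
    hf ?_
  · simpa using h
  · intro x
    unfold cw
    refine (enorm_integral_le_lintegral_enorm _).trans (le_of_eq ?_)
    apply lintegral_congr
    intro y
    rw [enorm_mul, hk.enorm]

theorem memLp_of_test {f : E n → ℂ} (hf : Continuous f) (hc : HasCompactSupport f) :
    MemLp f 2 volume := hf.memLp_of_hasCompactSupport hc

theorem hasCompactSupport_dz {f : E n → ℂ} (hc : HasCompactSupport f) (j : Fin n) :
    HasCompactSupport (dz j f) := hc.mono' (subset_closure.trans (tsupport_dz_subset f j))

theorem hasCompactSupport_db {f : E n → ℂ} (hc : HasCompactSupport f) (j : Fin n) :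
    HasCompactSupport (db j f) := hc.mono' (subset_closure.trans (tsupport_db_subset f j))

/-- Friedrichs commutator -/
theorem comm_bound {C ε : ℝ} {k : E n → ℝ} (hk : Ker C ε k) {A g : E n → ℂ}
    (hA : ContDiff ℝ ∞ A) {L : ℝ} (hL0 : 0 ≤ L) (hL : ∀ x y, ‖A x - A y‖ ≤ L * ‖x - y‖) (j : Fin n)
    (hL' : ∀ x, ‖db j A x‖ ≤ L) (hg : ContDiff ℝ ∞ g) (hgc : HasCompactSupport g) :
    MemLp (fun x => cw (kc k) (db j (fun y => A y * g y)) x -
      db j (fun y => A y * cw (kc k) g y) x) 2 volume ∧
    ∫ x, ‖cw (kc k) (db j (fun y => A y * g y)) x - db j (fun y => A y * cw (kc k) g y) x‖ ^ 2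
      ≤ (L * (C + 1)) ^ 2 * ∫ x, ‖g x‖ ^ 2 := by
  have hAg : ContDiff ℝ ∞ (fun y => A y * g y) := hA.mul hg
  have hAgc : HasCompactSupport (fun y => A y * g y) := hgc.mul_left
  have hdk : ContDiff ℝ ∞ (db j (kc k)) := contDiff_db hk.contDiff j
  have hdkc : HasCompactSupport (db j (kc k)) := hasCompactSupport_db hk.hcs' j
  have hgl : LocallyIntegrable g volume := hg.continuous.locallyIntegrable
  have hAgl : LocallyIntegrable (fun y => A y * g y) volume := hAg.continuous.locallyIntegrable
  have hcg : ContDiff ℝ ∞ (cw (kc k) g) := contDiff_cw hk.contDiff hk.hcs' hgl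
  have e1 : ∀ x, cw (kc k) (db j (fun y => A y * g y)) x = cw (db j (kc k)) (fun y => A y * g y) x := by
    intro x
    rw [← db_cw hAg hAgc hk.intble'.locallyIntegrable, cw_comm (kc k), db_cw hk.contDiff hk.hcs' hAgl,
      cw_comm]
  have e2 : ∀ x, db j (fun y => A y * cw (kc k) g y) x
      = db j A x * cw (kc k) g x + A x * cw (db j (kc k)) g x := by
    intro x
    rw [db_mul (hA.differentiable (by simp) x) (hcg.differentiable (by simp) x), cw_comm (kc k) g,
      db_cw hk.contDiff hk.hcs' hgl, cw_comm g (db j (kc k))]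
  have ei : ∀ x, cw (kc k) (db j (fun y => A y * g y)) x - db j (fun y => A y * cw (kc k) g y) x
      = ∫ y, (db j (kc k) (x - y) * (A y - A x) - db j A x * kc k (x - y)) * g y := by
    intro x
    rw [e1, e2]
    have i1 : Integrable (fun y => db j (kc k) (x - y) * (A y * g y)) volume :=
      integrable_cw_aux hAg.continuous hAgc hdk.continuous.locallyIntegrable x
    have i2 : Integrable (fun y => db j (kc k) (x - y) * g y) volume :=
      integrable_cw_aux hg.continuous hgc hdk.continuous.locallyIntegrable x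
    have i3 : Integrable (fun y => kc k (x - y) * g y) volume :=
      integrable_cw_aux hg.continuous hgc hk.contDiff.continuous.locallyIntegrable x
    unfold cw
    rw [← integral_const_mul, ← integral_const_mul, ← integral_add (i3.const_mul _) (i2.const_mul _)]
    refine (integral_sub (f := fun y => db j (kc k) (x - y) * (A y * g y))
      (g := fun y => db j A x * (kc k (x - y) * g y) + A x * (db j (kc k) (x - y) * g y))
      i1 ((i3.const_mul _).add (i2.const_mul _))).symm.trans ?_
    apply integral_congr_ae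
    filter_upwards with y
    ring
  let κ : E n → ℝ := fun z => L * (‖z‖ * ‖db j (kc k) z‖) + L * k z
  have hκ : Continuous κ := by
    have := hdk.continuous
    have := hk.smooth.continuous
    fun_prop
  have hκc : HasCompactSupport κ := by
    apply HasCompactSupport.add
    · exact (hdkc.norm.mul_left).mul_left
    · exact hk.hcs.mul_left
  apply young_of_le (κ := κ) hκ hκc
  · intro z
    have := hk.nonneg z
    positivity
  · have j1 : Integrable (fun z => ‖z‖ * ‖db j (kc k) z‖) volume := by
      apply Continuous.integrable_of_hasCompactSupport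
      · have := hdk.continuous
        fun_prop
      · exact hdkc.norm.mul_left
    show ∫ z, (L * (‖z‖ * ‖db j (kc k) z‖) + L * k z) ≤ _
    rw [integral_add (j1.const_mul _) (hk.intble.const_mul _), integral_const_mul,
      integral_const_mul, hk.int]
    have := mul_le_mul_of_nonneg_left (hk.der j) hL0
    linarith
  · apply Continuous.aestronglyMeasurable
    apply Continuous.sub
    · exact (contDiff_cw hk.contDiff hk.hcs' (contDiff_db hAg j).continuous.locallyIntegrable).continuous
    · exact (contDiff_db (hA.mul hcg) j).continuous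
  · exact memLp_of_test hg.continuous hgc
  · intro x
    rw [ei]
    refine (enorm_integral_le_lintegral_enorm _).trans ?_
    apply lintegral_mono
    intro y
    simp only [enorm_mul]
    gcongr
    rw [← ofReal_norm]
    apply ENNReal.ofReal_le_ofReal
    calc ‖db j (kc k) (x - y) * (A y - A x) - db j A x * kc k (x - y)‖
        ≤ ‖db j (kc k) (x - y)‖ * ‖A y - A x‖ + ‖db j A x‖ * ‖kc k (x - y)‖ := by
          refine (norm_sub_le _ _).trans ?_
          rw [norm_mul, norm_mul]
      _ ≤ ‖db j (kc k) (x - y)‖ * (L * ‖y - x‖) + L * ‖kc k (x - y)‖ := by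
          gcongr
          · exact hL y x
          · exact hL' x
      _ = _ := by
          have : ‖kc k (x - y)‖ = k (x - y) := by
            unfold kc
            rw [Complex.norm_real, Real.norm_of_nonneg (hk.nonneg _)]
          rw [this, norm_sub_rev y x]
          ring

theorem support_cw {C ε : ℝ} {k : E n → ℝ} (hk : Ker C ε k) {f : E n → ℂ} {K : Set (E n)}
    (hf : ∀ y, y ∉ K → f y = 0) {x : E n} (hx : x ∉ Metric.cthickening ε K) :
    cw (kc k) f x = 0 := by
  unfold cw
  have : ∀ y, kc k (x - y) * f y = 0 := by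
    intro y
    by_cases hy : y ∈ K
    · have h1 : ε < ‖x - y‖ := by
        by_contra h
        apply hx
        apply Metric.mem_cthickening_of_dist_le x y ε K hy
        rw [dist_eq_norm]
        exact not_lt.1 h
      unfold kc
      rw [hk.supp _ h1]
      simp
    · rw [hf y hy, mul_zero]
  simp [this]

theorem integrable_cw_aux' {κ f : E n → ℂ} (hκ : Continuous κ) (hc : HasCompactSupport κ)
    (hf : LocallyIntegrable f volume) (x : E n) : Integrable (fun y => κ (x - y) * f y) volume := by
  have h := hc.convolutionExists_left (ContinuousLinearMap.mul ℝ ℂ) hκ hf x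
  exact (convolutionExistsAt_iff_integrable_swap).1 h

theorem integrable_sq {f : E n → ℂ} (hf : MemLp f 2 volume) :
    Integrable (fun x => ‖f x‖ ^ 2) volume := (memLp_two_iff_integrable_sq_norm hf.1).1 hf

/-- mollifications converge in `L²` -/
theorem cw_tendsto {C : ℝ} {k : ℕ → E n → ℝ} {ε : ℕ → ℝ} (hk : ∀ i, Ker C (ε i) (k i))
    (hε : Tendsto ε atTop (𝓝 0)) {f : E n → ℂ} (hf : MemLp f 2 volume) :
    Tendsto (fun i => ∫ x, ‖cw (kc (k i)) f x - f x‖ ^ 2) atTop (𝓝 0) := by
  rw [Metric.tendsto_atTop]
  intro η hη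
  have hf2 : MemLp f (ENNReal.ofReal 2) volume := by simpa using hf
  obtain ⟨g, hgc, hgle, hgcont, hgm⟩ := hf2.exists_hasCompactSupport_integral_rpow_sub_le
    (p := 2) (by norm_num) (ε := η / 12) (by positivity)
  replace hgm : MemLp g 2 volume := by simpa using hgm
  replace hgle : ∫ x, ‖f x - g x‖ ^ 2 ≤ η / 12 := by
    refine le_trans (le_of_eq ?_) hgle
    apply integral_congr_ae
    filter_upwards with x
    norm_num
  set K1 := Metric.cthickening 1 (tsupport g) with hK1
  have hK1c : IsCompact K1 := IsCompact.cthickening hgc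
  have hV : volume K1 < ⊤ := hK1c.measure_lt_top
  set V : ℝ := volume.real K1 with hVdef
  have hV0 : 0 ≤ V := measureReal_nonneg
  obtain ⟨θ, hθ0, hθ⟩ : ∃ θ : ℝ, 0 < θ ∧ θ ^ 2 * V ≤ η / 12 := by
    refine ⟨Real.sqrt (η / (12 * (V + 1))), by positivity, ?_⟩
    rw [Real.sq_sqrt (by positivity)]
    rw [div_mul_eq_mul_div, div_le_div_iff₀ (by positivity) (by positivity)]
    nlinarith
  have huc : UniformContinuous g := hgc.uniformContinuous_of_continuous hgcont
  obtain ⟨δ, hδ, hδg⟩ := Metric.uniformContinuous_iff.1 huc θ hθ0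
  obtain ⟨N, hN⟩ := Metric.tendsto_atTop.1 hε (min δ 1) (by positivity)
  refine ⟨N, fun i hi => ?_⟩
  have hεi : |ε i| < min δ 1 := by simpa [Real.dist_eq] using hN i hi
  have hεδ : ε i < δ := lt_of_le_of_lt (le_abs_self _) (lt_of_lt_of_le hεi (min_le_left _ _))
  have hε1 : ε i < 1 := lt_of_le_of_lt (le_abs_self _) (lt_of_lt_of_le hεi (min_le_right _ _))
  have hki := hk i
  have hfg : MemLp (fun x => f x - g x) 2 volume := hf.sub hgm
  obtain ⟨m1, m2⟩ := cw_sq_le hki hfg
  obtain ⟨m3, m4⟩ := cw_sq_le hki hgm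
  -- pointwise
  have hgl : LocallyIntegrable g volume := hgcont.locallyIntegrable
  have hfl := memLp_two_locallyIntegrable hf
  have hp1 : ∀ x, cw (kc (k i)) f x = cw (kc (k i)) (fun x => f x - g x) x + cw (kc (k i)) g x := by
    intro x
    unfold cw
    refine Eq.trans ?_ (integral_add (f := fun y => kc (k i) (x - y) * (f y - g y))
      (integrable_cw_aux' hki.contDiff.continuous hki.hcs' (hfl.sub hgl) x)
      (integrable_cw_aux' hki.contDiff.continuous hki.hcs' hgl x))
    apply integral_congr_ae
    filter_upwards with y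
    ring
  have hp2 : ∀ x, ‖cw (kc (k i)) g x - g x‖ ≤ θ := by
    intro x
    have hi1 : ∫ y, kc (k i) (x - y) = 1 := by
      rw [integral_sub_left_eq_self (fun y => kc (k i) y) volume x]
      unfold kc
      rw [integral_complex_ofReal, hki.int]
      simp
    have hkx : Integrable (fun y => k i (x - y)) volume := hki.intble.comp_sub_left x
    have : cw (kc (k i)) g x - g x = ∫ y, kc (k i) (x - y) * (g y - g x) := by
      calc cw (kc (k i)) g x - g x = (∫ y, kc (k i) (x - y) * g y) - ∫ y, kc (k i) (x - y) * g x := by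
            rw [integral_mul_const, hi1, one_mul]; rfl
        _ = _ := by
            rw [← integral_sub (integrable_cw_aux' hki.contDiff.continuous hki.hcs' hgl x)
              ((hki.intble'.comp_sub_left x).mul_const _)]
            apply integral_congr_ae
            filter_upwards with y
            ring
    rw [this]
    calc ‖∫ y, kc (k i) (x - y) * (g y - g x)‖ ≤ ∫ y, k i (x - y) * θ := by
          apply norm_integral_le_of_norm_le (hkx.mul_const _)
          filter_upwards with y
          rw [norm_mul]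
          have hn : ‖kc (k i) (x - y)‖ = k i (x - y) := by
            unfold kc
            rw [Complex.norm_real, Real.norm_of_nonneg (hki.nonneg _)]
          rw [hn]
          by_cases hxy : ε i < ‖x - y‖
          · rw [hki.supp _ hxy]; simp
          · apply mul_le_mul_of_nonneg_left _ (hki.nonneg _)
            have : dist y x < δ := by
              rw [dist_comm, dist_eq_norm]
              exact lt_of_le_of_lt (not_lt.1 hxy) hεδ
            have := hδg this
            rw [dist_eq_norm] at this
            exact this.le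
      _ = θ := by
          rw [integral_mul_const, integral_sub_left_eq_self (fun y => k i y) volume x, hki.int, one_mul]
  have hp3 : ∀ x, ‖cw (kc (k i)) g x - g x‖ ^ 2 ≤ K1.indicator (fun _ => θ ^ 2) x := by
    intro x
    by_cases hx : x ∈ K1
    · rw [indicator_of_mem hx]
      exact pow_le_pow_left₀ (norm_nonneg _) (hp2 x) 2
    · rw [indicator_of_notMem hx]
      have h1 : x ∉ Metric.cthickening (ε i) (tsupport g) := fun h =>
        hx (Metric.cthickening_mono hε1.le _ h)
      have h2 : x ∉ tsupport g := fun h => hx (Metric.self_subset_cthickening _ h)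
      rw [support_cw hki (fun y hy => image_eq_zero_of_notMem_tsupport hy) h1,
        image_eq_zero_of_notMem_tsupport h2]
      simp
  have hI2 : MemLp (fun x => cw (kc (k i)) g x - g x) 2 volume := m3.sub hgm
  have hp4 : ∫ x, ‖cw (kc (k i)) g x - g x‖ ^ 2 ≤ η / 12 := by
    calc ∫ x, ‖cw (kc (k i)) g x - g x‖ ^ 2 ≤ ∫ x, K1.indicator (fun _ => θ ^ 2) x := by
          apply integral_mono (integrable_sq hI2)
          · exact (integrable_indicator_iff hK1c.measurableSet).2 (integrableOn_const hV.ne)
          · exact hp3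
      _ = θ ^ 2 * V := by
          rw [integral_indicator_const _ hK1c.measurableSet, smul_eq_mul, mul_comm]
      _ ≤ _ := hθ
  have hp5 : ∀ x, ‖cw (kc (k i)) f x - f x‖ ^ 2 ≤ 3 * (‖cw (kc (k i)) (fun x => f x - g x) x‖ ^ 2
      + ‖cw (kc (k i)) g x - g x‖ ^ 2 + ‖f x - g x‖ ^ 2) := by
    intro x
    have : cw (kc (k i)) f x - f x = cw (kc (k i)) (fun x => f x - g x) x
        + (cw (kc (k i)) g x - g x) + (-(f x - g x)) := by rw [hp1]; ring
    rw [this]
    have h3 := norm_add₃_le (a := cw (kc (k i)) (fun x => f x - g x) x)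
      (b := (cw (kc (k i)) g x - g x)) (c := (-(f x - g x)))
    rw [norm_neg] at h3
    have h4 := norm_nonneg (cw (kc (k i)) (fun x => f x - g x) x + (cw (kc (k i)) g x - g x) + (-(f x - g x)))
    nlinarith [sq_nonneg (‖cw (kc (k i)) (fun x => f x - g x) x‖ - ‖cw (kc (k i)) g x - g x‖),
      sq_nonneg (‖cw (kc (k i)) (fun x => f x - g x) x‖ - ‖f x - g x‖),
      sq_nonneg (‖cw (kc (k i)) g x - g x‖ - ‖f x - g x‖)]
  rw [Real.dist_eq, sub_zero, abs_of_nonneg (integral_nonneg fun x => by positivity)]
  calc ∫ x, ‖cw (kc (k i)) f x - f x‖ ^ 2 ≤ ∫ x, 3 * (‖cw (kc (k i)) (fun x => f x - g x) x‖ ^ 2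
      + ‖cw (kc (k i)) g x - g x‖ ^ 2 + ‖f x - g x‖ ^ 2) := by
        apply integral_mono
        · exact integrable_sq ((cw_sq_le hki hf).1.sub hf)
        · exact (((integrable_sq m1).add (integrable_sq hI2)).add (integrable_sq hfg)).const_mul 3
        · exact hp5
    _ = 3 * ((∫ x, ‖cw (kc (k i)) (fun x => f x - g x) x‖ ^ 2)
      + (∫ x, ‖cw (kc (k i)) g x - g x‖ ^ 2) + ∫ x, ‖f x - g x‖ ^ 2) := by
        rw [integral_const_mul]
        congr 1
        rw [← integral_add (integrable_sq m1) (integrable_sq hI2)]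
        exact integral_add (f := fun x => ‖cw (kc (k i)) (fun x => f x - g x) x‖ ^ 2
          + ‖cw (kc (k i)) g x - g x‖ ^ 2) (g := fun x => ‖f x - g x‖ ^ 2)
          ((integrable_sq m1).add (integrable_sq hI2)) (integrable_sq hfg)
    _ < η := by linarith

end A6

end Pool.Agent.helper63.NU
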