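import Pool.Agent.helper4.NU.A6b

set_option autoImplicit false
set_option linter.all false

/-! Module A6, part c: the energy estimate. -/

open MeasureTheory Filter Topology Set
open scoped ContDiff Manifold Matrix ENNReal ComplexOrder

noncomputable section

namespace Pool.Agent.helper63.NU

namespace A6

variable {n : ℕ}

theorem exists_bound {ι : Type*} [Fintype ι] (F : ι → E n → ℂ) (h : ∀ i, Continuous (F i))
    (hc : ∀ i, HasCompactSupport (F i)) : ∃ M : ℝ, 0 ≤ M ∧ ∀ i x, ‖F i x‖ ≤ M := by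
  choose C hC using fun i => (h i).bounded_above_of_compact_support (hc i)
  refine ⟨∑ i, |C i|, Finset.sum_nonneg fun i _ => abs_nonneg _, fun i x => ?_⟩
  calc ‖F i x‖ ≤ C i := hC i x
    _ ≤ |C i| := le_abs_self _
    _ ≤ _ := Finset.single_le_sum (f := fun i => |C i|) (fun i _ => abs_nonneg _) (Finset.mem_univ i)

theorem exists_lip {ι : Type*} [Fintype ι] (F : ι → E n → ℂ) (h : ∀ i, ContDiff ℝ ∞ (F i))
    (hc : ∀ i, HasCompactSupport (F i)) : ∃ M : ℝ, 0 ≤ M ∧ ∀ i x y, ‖F i x - F i y‖ ≤ M * ‖x - y‖ := by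
  choose C hC using fun i => ContDiff.lipschitzWith_of_hasCompactSupport (hc i) (h i) (by simp)
  refine ⟨∑ i, (C i : ℝ), Finset.sum_nonneg fun i _ => NNReal.coe_nonneg _, fun i x y => ?_⟩
  calc ‖F i x - F i y‖ ≤ C i * ‖x - y‖ := by
        have := (hC i).dist_le_mul x y
        rwa [dist_eq_norm, dist_eq_norm] at this
    _ ≤ _ := by
        apply mul_le_mul_of_nonneg_right _ (norm_nonneg _)
        exact Finset.single_le_sum (f := fun i => (C i : ℝ)) (fun i _ => NNReal.coe_nonneg _)
          (Finset.mem_univ i)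

theorem contDiff_conj {f : E n → ℂ} (hf : ContDiff ℝ ∞ f) :
    ContDiff ℝ ∞ (fun z => (starRingEnd ℂ) (f z)) :=
  Complex.conjCLE.contDiff.comp hf

theorem hcs_conj {f : E n → ℂ} (hf : HasCompactSupport f) :
    HasCompactSupport (fun z => (starRingEnd ℂ) (f z)) :=
  hf.comp_left (g := fun z => (starRingEnd ℂ) z) (by simp)

theorem integral_mul_conj_self (g : E n → ℂ) :
    ∫ x, g x * (starRingEnd ℂ) (g x) = ((∫ x, ‖g x‖ ^ 2 : ℝ) : ℂ) := by
  rw [← integral_complex_ofReal]
  apply integral_congr_ae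
  filter_upwards with x
  rw [Complex.mul_conj']
  push_cast
  rfl

theorem integral_dz_sq {f : E n → ℂ} (hf : ContDiff ℝ ∞ f) (hc : HasCompactSupport f) (j : Fin n) :
    ∫ x, ‖dz j f x‖ ^ 2 = ∫ x, ‖db j f x‖ ^ 2 := by
  have hcj := contDiff_conj hf
  have hcc := hcs_conj hc
  have h2 : ContDiff ℝ 2 (fun z => (starRingEnd ℂ) (f z)) := by
    exact_mod_cast contDiff_infty.1 hcj 2
  have key : ∫ x, dz j f x * (starRingEnd ℂ) (dz j f x) = ∫ x, db j f x * (starRingEnd ℂ) (db j f x) := by
    calc ∫ x, dz j f x * (starRingEnd ℂ) (dz j f x)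
        = ∫ x, dz j f x * db j (fun z => (starRingEnd ℂ) (f z)) x := by
          simp_rw [db_conj]
      _ = -∫ x, f x * dz j (db j (fun z => (starRingEnd ℂ) (f z))) x :=
          integral_dz_mul isOpen_univ hf.contDiffOn (contDiff_db hcj j) (hasCompactSupport_db hcc j)
            (subset_univ _) j
      _ = -∫ x, f x * db j (dz j (fun z => (starRingEnd ℂ) (f z))) x := by
          congr 1
          apply integral_congr_ae
          filter_upwards with x
          rw [dz_db_comm h2.contDiffAt]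
      _ = ∫ x, db j f x * dz j (fun z => (starRingEnd ℂ) (f z)) x :=
          (integral_db_mul isOpen_univ hf.contDiffOn (contDiff_dz hcj j) (hasCompactSupport_dz hcc j)
            (subset_univ _) j).symm
      _ = _ := by simp_rw [dz_conj]
  rw [integral_mul_conj_self, integral_mul_conj_self] at key
  exact_mod_cast key

theorem cw_sum {ι : Type*} (s : Finset ι) {κ : E n → ℂ} (F : ι → E n → ℂ)
    (hF : ∀ i, Continuous (F i)) (hc : ∀ i, HasCompactSupport (F i)) (hκ : LocallyIntegrable κ volume)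
    (x : E n) : cw κ (fun y => ∑ i ∈ s, F i y) x = ∑ i ∈ s, cw κ (F i) x := by
  unfold cw
  rw [← integral_finset_sum _ (fun i _ => integrable_cw_aux (hF i) (hc i) hκ x)]
  apply integral_congr_ae
  filter_upwards with y
  rw [Finset.mul_sum]

/-- the data of the equation satisfied by `χ r` -/
structure Data (n : ℕ) where
  K : Set (E n)
  A : Fin n → Fin n → E n → ℂ
  χ : E n → ℂ
  R : E n → ℂ
  a : E n → ℂ
  b : Fin n → E n → ℂ
  c : Fin n → E n → ℂ
  c0 : ℝ
  Kc : IsClosed K
  As : ∀ j k, ContDiff ℝ ∞ (A j k)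
  Ac : ∀ j k, HasCompactSupport (A j k)
  χs : ContDiff ℝ ∞ χ
  χc : HasCompactSupport χ
  as : ContDiff ℝ ∞ a
  ac : HasCompactSupport a
  bs : ∀ j, ContDiff ℝ ∞ (b j)
  bc : ∀ j, HasCompactSupport (b j)
  cs : ∀ j, ContDiff ℝ ∞ (c j)
  cc : ∀ j, HasCompactSupport (c j)
  R2 : MemLp R 2 volume
  c0pos : 0 < c0
  coer : ∀ y ∈ K, ∀ ξ : Fin n → ℂ, c0 * ∑ j, ‖ξ j‖ ^ 2 ≤
    (∑ j, ∑ k, ξ j * (A j k y * (starRingEnd ℂ) (ξ k))).re
  weak : ∀ V : E n → ℂ, ContDiff ℝ ∞ V → HasCompactSupport V →
    ∫ x, R x * (χ x * (∑ j, db j (fun y => ∑ k, A j k y * dz k V y) x) + a x * V x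
      + (∑ j, b j x * db j V x) + ∑ j, c j x * dz j V x) = 0

theorem R_mul_int {R g : E n → ℂ} (hR : MemLp R 2 volume) (hg : Continuous g)
    (hc : HasCompactSupport g) : Integrable (fun x => R x * g x) volume :=
  hR.integrable_mul (memLp_of_test hg hc)

theorem young_ineq (M δ r x : ℝ) (hδ : 0 < δ) : M * (r * x) ≤ M ^ 2 / δ * r ^ 2 + δ * x ^ 2 := by
  have h : M ^ 2 / δ * r ^ 2 + δ * x ^ 2 - M * (r * x) =
      (M * r / 2 - δ * x) ^ 2 / δ + 3 / 4 * (M * r) ^ 2 / δ := by
    field_simp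
    ring
  have : 0 ≤ (M * r / 2 - δ * x) ^ 2 / δ + 3 / 4 * (M * r) ^ 2 / δ := by positivity
  linarith

theorem energy (d : Data n) {C : ℝ} (hC : 0 ≤ C) :
    ∃ S0 : ℝ, ∀ (ε : ℝ) (k : E n → ℝ), Ker C ε k →
      tsupport (cw (kc k) (fun x => d.χ x * d.R x)) ⊆ d.K →
      HasCompactSupport (cw (kc k) (fun x => d.χ x * d.R x)) →
      ∑ j, ∫ x, ‖db j (cw (kc k) (fun x => d.χ x * d.R x)) x‖ ^ 2 ≤ S0 := by
  obtain ⟨K, A, χ, R, a, b, c, c0, Kc, As, Ac, χs, χc, as, ac, bs, bc, cs, cc, R2, c0pos, coer, weak⟩ := d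
  dsimp only
  obtain ⟨M1, M1n, hM1⟩ := exists_bound (fun p : Fin n × Fin n × Fin n => db p.1 (A p.2.1 p.2.2))
    (fun p => (contDiff_db (As _ _) _).continuous) (fun p => hasCompactSupport_db (Ac _ _) _)
  obtain ⟨L1, L1n, hL1⟩ := exists_lip (fun p : Fin n × Fin n => A p.1 p.2)
    (fun p => As _ _) (fun p => Ac _ _)
  obtain ⟨M2, M2n, hM2⟩ := exists_bound (fun _ : Unit => χ) (fun _ => χs.continuous) (fun _ => χc)
  obtain ⟨M3, M3n, hM3⟩ := exists_bound (fun _ : Unit => a) (fun _ => as.continuous) (fun _ => ac)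
  obtain ⟨M4, M4n, hM4⟩ := exists_bound b (fun j => (bs j).continuous) bc
  obtain ⟨M5, M5n, hM5⟩ := exists_bound c (fun j => (cs j).continuous) cc
  set L := M1 + L1 with hL
  have hL0 : 0 ≤ L := by positivity
  set M := M2 + M3 + M4 + M5 with hM
  have hM0 : 0 ≤ M := by positivity
  have bχ : ∀ x, ‖χ x‖ ≤ M := fun x => by have := hM2 () x; linarith
  have ba : ∀ x, ‖a x‖ ≤ M := fun x => by have := hM3 () x; linarith
  have bb : ∀ j x, ‖b j x‖ ≤ M := fun j x => by have := hM4 j x; linarith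
  have bc' : ∀ j x, ‖c j x‖ ≤ M := fun j x => by have := hM5 j x; linarith
  set D := L * (C + 1) with hD
  set δ := c0 / (2 * (2 + n * D ^ 2)) with hδ
  have hδ0 : 0 < δ := by positivity
  -- the localised function
  set rt : E n → ℂ := fun x => χ x * R x with hrt
  have rtm : AEStronglyMeasurable rt volume := χs.continuous.aestronglyMeasurable.mul R2.1
  have rt2 : MemLp rt 2 volume := by
    apply R2.of_le_mul rtm (c := M)
    filter_upwards with x
    rw [hrt]
    dsimp only
    rw [norm_mul]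
    exact mul_le_mul_of_nonneg_right (bχ x) (norm_nonneg _)
  have rtI : Integrable rt volume := by
    have := R_mul_int R2 χs.continuous χc
    refine this.congr ?_
    filter_upwards with x
    rw [hrt]
    ring
  refine ⟨(2 / c0) * ((n ^ 2 + 1 + n + n) * (M ^ 2 / δ) * (∫ x, ‖R x‖ ^ 2) + δ * ∫ x, ‖rt x‖ ^ 2), ?_⟩
  intro ε k hk hsub hcs
  set f := cw (kc k) rt with hf
  have fs : ContDiff ℝ ∞ f := contDiff_cw hk.contDiff hk.hcs' rtI.locallyIntegrable
  have fn2 : ∫ x, ‖f x‖ ^ 2 ≤ ∫ x, ‖rt x‖ ^ 2 := (cw_sq_le hk rt2).2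
  set v : E n → ℂ := fun z => (starRingEnd ℂ) (f z) with hv
  have vs : ContDiff ℝ ∞ v := contDiff_conj fs
  have vc : HasCompactSupport v := hcs_conj hcs
  have κl : LocallyIntegrable (kc k) volume := hk.intble'.locallyIntegrable
  set V : E n → ℂ := cw (kc k) v with hV
  have Vs : ContDiff ℝ ∞ V := contDiff_cw' vs vc κl
  have Vc : HasCompactSupport V := hasCompactSupport_cw hk.hcs' vc
  have dzV : ∀ j, dz j V = cw (kc k) (dz j v) := fun j => funext fun x => dz_cw vs vc κl j x
  have dbV : ∀ j, db j V = cw (kc k) (db j v) := fun j => funext fun x => db_cw vs vc κl j x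
  have dzv : ∀ j x, dz j v x = (starRingEnd ℂ) (db j f x) := fun j x => dz_conj f x j
  have dbv' : ∀ j x, db j v x = (starRingEnd ℂ) (dz j f x) := fun j x => db_conj f x j
  -- norms
  set S := ∑ j, ∫ x, ‖db j f x‖ ^ 2 with hS
  have Sj0 : ∀ j, 0 ≤ ∫ x, ‖db j f x‖ ^ 2 := fun j => integral_nonneg fun x => by positivity
  have S0 : 0 ≤ S := Finset.sum_nonneg fun j _ => Sj0 j
  have n1 : ∫ x, ‖V x‖ ^ 2 ≤ ∫ x, ‖rt x‖ ^ 2 := by
    refine (cw_sq_le hk (memLp_of_test vs.continuous vc)).2.trans ?_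
    refine le_trans (le_of_eq ?_) fn2
    apply integral_congr_ae
    filter_upwards with x
    rw [hv]
    dsimp only
    rw [RCLike.norm_conj]
  have n2 : ∀ j, ∫ x, ‖dz j v x‖ ^ 2 = ∫ x, ‖db j f x‖ ^ 2 := by
    intro j
    apply integral_congr_ae
    filter_upwards with x
    rw [dzv, RCLike.norm_conj]
  have n3 : ∀ j, ∫ x, ‖db j v x‖ ^ 2 = ∫ x, ‖db j f x‖ ^ 2 := by
    intro j
    rw [← integral_dz_sq fs hcs]
    apply integral_congr_ae
    filter_upwards with x
    rw [dbv', RCLike.norm_conj]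
  have dzvs : ∀ j, ContDiff ℝ ∞ (dz j v) := fun j => contDiff_dz vs j
  have dzvc : ∀ j, HasCompactSupport (dz j v) := fun j => hasCompactSupport_dz vc j
  have dbvs : ∀ j, ContDiff ℝ ∞ (db j v) := fun j => contDiff_db vs j
  have dbvc : ∀ j, HasCompactSupport (db j v) := fun j => hasCompactSupport_db vc j
  have n4 : ∀ j, ∫ x, ‖dz j V x‖ ^ 2 ≤ ∫ x, ‖db j f x‖ ^ 2 := by
    intro j
    rw [dzV, ← n2]
    exact (cw_sq_le hk (memLp_of_test (dzvs j).continuous (dzvc j))).2
  have n5 : ∀ j, ∫ x, ‖db j V x‖ ^ 2 ≤ ∫ x, ‖db j f x‖ ^ 2 := by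
    intro j
    rw [dbV, ← n3]
    exact (cw_sq_le hk (memLp_of_test (dbvs j).continuous (dbvc j))).2
  -- commutators
  let Com : Fin n → Fin n → E n → ℂ := fun j l x =>
    cw (kc k) (db j (fun y => A j l y * dz l v y)) x - db j (fun y => A j l y * cw (kc k) (dz l v) y) x
  have hCom : ∀ j l, MemLp (Com j l) 2 volume ∧ ∫ x, ‖Com j l x‖ ^ 2 ≤ D ^ 2 * ∫ x, ‖db l f x‖ ^ 2 := by
    intro j l
    have := comm_bound hk (As j l) hL0 (fun x y => ?_) j (fun x => ?_) (dzvs l) (dzvc l)
    · rw [n2] at this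
      exact this
    · have h1 := hL1 (j, l) x y
      dsimp only at h1
      refine h1.trans (mul_le_mul_of_nonneg_right (by linarith) (norm_nonneg _))
    · have h1 := hM1 (j, j, l) x
      dsimp only at h1
      linarith
  let P : Fin n → E n → ℂ := fun j y => ∑ l, A j l y * dz l v y
  let G : E n → ℂ := fun x => ∑ j, db j (P j) x
  let PV : Fin n → E n → ℂ := fun j y => ∑ l, A j l y * dz l V y
  have Als : ∀ j l, ContDiff ℝ ∞ (fun y => A j l y * dz l v y) := fun j l => (As j l).mul (dzvs l)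
  have Alc : ∀ j l, HasCompactSupport (fun y => A j l y * dz l v y) := fun j l => (dzvc l).mul_left
  have ALs : ∀ j l, ContDiff ℝ ∞ (fun y => A j l y * dz l V y) := fun j l =>
    (As j l).mul (contDiff_dz Vs l)
  have ALc : ∀ j l, HasCompactSupport (fun y => A j l y * dz l V y) := fun j l =>
    (hasCompactSupport_dz Vc l).mul_left
  have Ps : ∀ j, ContDiff ℝ ∞ (P j) := fun j => ContDiff.sum fun l _ => Als j l
  have hcsum : ∀ {F : Fin n → E n → ℂ}, (∀ l, HasCompactSupport (F l)) →
      HasCompactSupport (fun y => ∑ l, F l y) := by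
    intro F hF
    have hKc : IsCompact (⋃ l, tsupport (F l)) := isCompact_iUnion fun l => hF l
    apply HasCompactSupport.intro hKc
    intro x hx
    apply Finset.sum_eq_zero
    intro l _
    apply image_eq_zero_of_notMem_tsupport
    intro h
    exact hx (mem_iUnion.2 ⟨l, h⟩)
  have Pc : ∀ j, HasCompactSupport (P j) := fun j => hcsum (Alc j)
  have PVs : ∀ j, ContDiff ℝ ∞ (PV j) := fun j => ContDiff.sum fun l _ => ALs j l
  have PVc : ∀ j, HasCompactSupport (PV j) := fun j => hcsum (ALc j)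
  have Gs : ContDiff ℝ ∞ G := ContDiff.sum fun j _ => contDiff_db (Ps j) j
  have Gc : HasCompactSupport G := hcsum fun j => hasCompactSupport_db (Pc j) j
  have hcwG : ∀ x, cw (kc k) G x = (∑ j, ∑ l, Com j l x) + ∑ j, db j (PV j) x := by
    intro x
    have e1 : cw (kc k) G x = ∑ j, ∑ l, cw (kc k) (db j (fun y => A j l y * dz l v y)) x := by
      show cw (kc k) (fun x => ∑ j, db j (P j) x) x = _
      rw [cw_sum Finset.univ (fun j => db j (P j)) (fun j => (contDiff_db (Ps j) j).continuous)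
        (fun j => hasCompactSupport_db (Pc j) j) κl]
      apply Finset.sum_congr rfl
      intro j _
      have : db j (P j) = fun y => ∑ l, db j (fun y => A j l y * dz l v y) y := by
        ext y
        exact db_sum Finset.univ (fun l _ => (Als j l).differentiable (by simp) y) j
      rw [this, cw_sum Finset.univ (fun l => db j (fun y => A j l y * dz l v y))
        (fun l => (contDiff_db (Als j l) j).continuous)
        (fun l => hasCompactSupport_db (Alc j l) j) κl]
    have e2 : ∀ j, db j (PV j) x = ∑ l, db j (fun y => A j l y * cw (kc k) (dz l v) y) x := by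
      intro j
      have := db_sum Finset.univ (f := fun l y => A j l y * dz l V y) (y := x)
        (fun l _ => (ALs j l).differentiable (by simp) x) j
      refine this.trans ?_
      apply Finset.sum_congr rfl
      intro l _
      rw [dzV]
    rw [e1]
    simp_rw [e2]
    rw [← Finset.sum_add_distrib]
    apply Finset.sum_congr rfl
    intro j _
    rw [← Finset.sum_add_distrib]
    apply Finset.sum_congr rfl
    intro l _
    simp only [Com]
    ring
  -- the energy
  let Q : ℂ := ∫ x, ∑ j, db j f x * P j x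
  have dbfs : ∀ j, ContDiff ℝ ∞ (db j f) := fun j => contDiff_db fs j
  have dbfc : ∀ j, HasCompactSupport (db j f) := fun j => hasCompactSupport_db hcs j
  have hQi : ∀ j, Integrable (fun x => db j f x * P j x) volume := fun j =>
    ((dbfs j).mul (Ps j)).continuous.integrable_of_hasCompactSupport (Pc j).mul_left
  have hQ1 : Q = -∫ x, f x * G x := by
    show ∫ x, ∑ j, db j f x * P j x = _
    rw [integral_finset_sum _ fun j _ => hQi j]
    have : ∀ x, f x * G x = ∑ j, f x * db j (P j) x := fun x => by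
      show f x * ∑ j, db j (P j) x = _
      rw [Finset.mul_sum]
    simp_rw [this]
    rw [integral_finset_sum _ fun j _ => ((fs.mul (contDiff_db (Ps j) j)).continuous.integrable_of_hasCompactSupport
      (hasCompactSupport_db (Pc j) j).mul_left), ← Finset.sum_neg_distrib]
    apply Finset.sum_congr rfl
    intro j _
    exact integral_db_mul isOpen_univ fs.contDiffOn (Ps j) (Pc j) (subset_univ _) j
  have hQ2 : ∫ x, f x * G x = ∫ x, rt x * cw (kc k) G x :=
    integral_cw_mul hk.contDiff.continuous hk.hcs' hk.even' rtI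
      (Gs.continuous.integrable_of_hasCompactSupport Gc)
  have hw := weak V Vs Vc
  have cGs : ContDiff ℝ ∞ (cw (kc k) G) := contDiff_cw' Gs Gc κl
  have cGc : HasCompactSupport (cw (kc k) G) := hasCompactSupport_cw hk.hcs' Gc
  have i1 : Integrable (fun x => R x * (-(χ x * cw (kc k) G x))) volume := by
    apply R_mul_int R2
    · exact (χs.mul cGs).continuous.neg
    · exact (HasCompactSupport.mul_right χc (f' := cw (kc k) G)).comp_left (g := fun z => -z) (by simp)
  have i2 : Integrable (fun x => R x * (χ x * (∑ j, db j (fun y => ∑ k, A j k y * dz k V y) x) + a x * V x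
      + (∑ j, b j x * db j V x) + ∑ j, c j x * dz j V x)) volume := by
    apply R_mul_int R2
    · apply ContDiff.continuous (𝕜 := ℝ) (n := ∞)
      refine (((χs.mul (ContDiff.sum fun j _ => contDiff_db (PVs j) j)).add (as.mul Vs)).add
        (ContDiff.sum fun j _ => (bs j).mul (contDiff_db Vs j))).add
        (ContDiff.sum fun j _ => (cs j).mul (contDiff_dz Vs j))
    · refine HasCompactSupport.add (HasCompactSupport.add (HasCompactSupport.add ?_ ?_) ?_) ?_
      · exact (hcsum fun j => hasCompactSupport_db (PVc j) j).mul_left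
      · exact Vc.mul_left
      · exact hcsum fun j => (hasCompactSupport_db Vc j).mul_left
      · exact hcsum fun j => (hasCompactSupport_dz Vc j).mul_left
  have hQ3 : Q = ∫ x, R x * (-(χ x * ∑ j, ∑ l, Com j l x) + a x * V x
      + (∑ j, b j x * db j V x) + ∑ j, c j x * dz j V x) := by
    rw [hQ1, hQ2]
    have e3 : -∫ x, rt x * cw (kc k) G x = ∫ x, R x * (-(χ x * cw (kc k) G x)) := by
      rw [← integral_neg]
      apply integral_congr_ae
      filter_upwards with x
      rw [hrt]
      ring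
    rw [e3, ← add_zero (∫ x, R x * (-(χ x * cw (kc k) G x))), ← hw, ← integral_add i1 i2]
    apply integral_congr_ae
    filter_upwards with x
    rw [hcwG]
    ring
  -- final estimate
  set ρ := ∫ x, ‖R x‖ ^ 2 with hρ
  have ρ0 : 0 ≤ ρ := integral_nonneg fun x => by positivity
  let T : (E n → ℂ) → E n → ℝ := fun F x => M ^ 2 / δ * ‖R x‖ ^ 2 + δ * ‖F x‖ ^ 2
  have Ti : ∀ F : E n → ℂ, MemLp F 2 volume → Integrable (T F) volume := fun F hF =>
    ((integrable_sq R2).const_mul _).add ((integrable_sq hF).const_mul _)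
  have Tint : ∀ F : E n → ℂ, MemLp F 2 volume → ∫ x, T F x = M ^ 2 / δ * ρ + δ * ∫ x, ‖F x‖ ^ 2 := by
    intro F hF
    show ∫ x, (M ^ 2 / δ * ‖R x‖ ^ 2 + δ * ‖F x‖ ^ 2) = _
    rw [integral_add ((integrable_sq R2).const_mul _) ((integrable_sq hF).const_mul _),
      integral_const_mul, integral_const_mul]
  have Tle : ∀ (F : E n → ℂ) (x : E n), M * (‖R x‖ * ‖F x‖) ≤ T F x := fun F x =>
    young_ineq M δ ‖R x‖ ‖F x‖ hδ0
  have V2 : MemLp V 2 volume := memLp_of_test Vs.continuous Vc
  have dbV2 : ∀ j, MemLp (db j V) 2 volume := fun j =>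
    memLp_of_test (contDiff_db Vs j).continuous (hasCompactSupport_db Vc j)
  have dzV2 : ∀ j, MemLp (dz j V) 2 volume := fun j =>
    memLp_of_test (contDiff_dz Vs j).continuous (hasCompactSupport_dz Vc j)
  have iCom : Integrable (fun x => ∑ j, ∑ l, T (Com j l) x) volume :=
    integrable_finset_sum _ fun j _ => integrable_finset_sum _ fun l _ => Ti _ (hCom j l).1
  have idb : Integrable (fun x => ∑ j, T (db j V) x) volume :=
    integrable_finset_sum _ fun j _ => Ti _ (dbV2 j)
  have idz : Integrable (fun x => ∑ j, T (dz j V) x) volume :=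
    integrable_finset_sum _ fun j _ => Ti _ (dzV2 j)
  have hQ4 : ‖Q‖ ≤ ∫ x, ((((∑ j, ∑ l, T (Com j l) x) + T V x) + ∑ j, T (db j V) x)
      + ∑ j, T (dz j V) x) := by
    rw [hQ3]
    apply norm_integral_le_of_norm_le
    · exact ((iCom.add (Ti V V2)).add idb).add idz
    filter_upwards with x
    have g1 : ‖R x * (-(χ x * ∑ j, ∑ l, Com j l x))‖ ≤ ∑ j, ∑ l, T (Com j l) x := by
      rw [norm_mul, norm_neg, norm_mul]
      calc ‖R x‖ * (‖χ x‖ * ‖∑ j, ∑ l, Com j l x‖) ≤ ‖R x‖ * (M * ∑ j, ∑ l, ‖Com j l x‖) := by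
            gcongr
            · exact bχ x
            · exact (norm_sum_le _ _).trans (Finset.sum_le_sum fun j _ => norm_sum_le _ _)
        _ = ∑ j, ∑ l, M * (‖R x‖ * ‖Com j l x‖) := by
            rw [Finset.mul_sum, Finset.mul_sum]
            apply Finset.sum_congr rfl
            intro j _
            rw [Finset.mul_sum, Finset.mul_sum]
            apply Finset.sum_congr rfl
            intro l _
            ring
        _ ≤ _ := Finset.sum_le_sum fun j _ => Finset.sum_le_sum fun l _ => Tle _ _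
    have g2 : ‖R x * (a x * V x)‖ ≤ T V x := by
      rw [norm_mul, norm_mul]
      calc ‖R x‖ * (‖a x‖ * ‖V x‖) ≤ ‖R x‖ * (M * ‖V x‖) := by gcongr; exact ba x
        _ = M * (‖R x‖ * ‖V x‖) := by ring
        _ ≤ _ := Tle _ _
    have g3 : ‖R x * ∑ j, b j x * db j V x‖ ≤ ∑ j, T (db j V) x := by
      rw [Finset.mul_sum]
      refine (norm_sum_le _ _).trans (Finset.sum_le_sum fun j _ => ?_)
      rw [norm_mul, norm_mul]
      calc ‖R x‖ * (‖b j x‖ * ‖db j V x‖) ≤ ‖R x‖ * (M * ‖db j V x‖) := by gcongr; exact bb j x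
        _ = M * (‖R x‖ * ‖db j V x‖) := by ring
        _ ≤ _ := Tle _ _
    have g4 : ‖R x * ∑ j, c j x * dz j V x‖ ≤ ∑ j, T (dz j V) x := by
      rw [Finset.mul_sum]
      refine (norm_sum_le _ _).trans (Finset.sum_le_sum fun j _ => ?_)
      rw [norm_mul, norm_mul]
      calc ‖R x‖ * (‖c j x‖ * ‖dz j V x‖) ≤ ‖R x‖ * (M * ‖dz j V x‖) := by gcongr; exact bc' j x
        _ = M * (‖R x‖ * ‖dz j V x‖) := by ring
        _ ≤ _ := Tle _ _
    rw [mul_add, mul_add, mul_add]
    refine (norm_add_le _ _).trans (add_le_add ?_ g4)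
    refine (norm_add_le _ _).trans (add_le_add ?_ g3)
    exact (norm_add_le _ _).trans (add_le_add g1 g2)
  have hint : ∫ x, ((((∑ j, ∑ l, T (Com j l) x) + T V x) + ∑ j, T (db j V) x)
      + ∑ j, T (dz j V) x) = (∑ j, ∑ l, ∫ x, T (Com j l) x) + (∫ x, T V x)
        + (∑ j, ∫ x, T (db j V) x) + ∑ j, ∫ x, T (dz j V) x := by
    rw [← integral_finset_sum _ fun j _ => Ti _ (dzV2 j),
      ← integral_finset_sum _ fun j _ => Ti _ (dbV2 j)]
    have : ∑ j, ∑ l, ∫ x, T (Com j l) x = ∫ x, ∑ j, ∑ l, T (Com j l) x := by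
      rw [integral_finset_sum _ fun j _ => integrable_finset_sum _ fun l _ => Ti _ (hCom j l).1]
      apply Finset.sum_congr rfl
      intro j _
      rw [integral_finset_sum _ fun l _ => Ti _ (hCom j l).1]
    rw [this]
    have s1 := integral_add (f := fun x => ((∑ j, ∑ l, T (Com j l) x) + T V x) + ∑ j, T (db j V) x)
      (g := fun x => ∑ j, T (dz j V) x) ((iCom.add (Ti V V2)).add idb) idz
    have s2 := integral_add (f := fun x => (∑ j, ∑ l, T (Com j l) x) + T V x)
      (g := fun x => ∑ j, T (db j V) x) (iCom.add (Ti V V2)) idb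
    have s3 := integral_add (f := fun x => (∑ j, ∑ l, T (Com j l) x))
      (g := T V) iCom (Ti V V2)
    rw [s1, s2, s3]
  have hb1 : ∑ j, ∑ l, ∫ x, T (Com j l) x ≤ n ^ 2 * (M ^ 2 / δ * ρ) + δ * (n * D ^ 2 * S) := by
    have : ∀ j l, ∫ x, T (Com j l) x ≤ M ^ 2 / δ * ρ + δ * (D ^ 2 * ∫ x, ‖db l f x‖ ^ 2) := by
      intro j l
      rw [Tint _ (hCom j l).1]
      gcongr
      exact (hCom j l).2
    calc ∑ j, ∑ l, ∫ x, T (Com j l) x
        ≤ ∑ j : Fin n, ∑ l, (M ^ 2 / δ * ρ + δ * (D ^ 2 * ∫ x, ‖db l f x‖ ^ 2)) :=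
          Finset.sum_le_sum fun j _ => Finset.sum_le_sum fun l _ => this j l
      _ = _ := by
          simp_rw [Finset.sum_add_distrib, ← Finset.mul_sum]
          rw [← hS]
          simp only [Finset.sum_const, Finset.card_univ, Fintype.card_fin, nsmul_eq_mul]
          ring
  have hb2 : ∫ x, T V x ≤ M ^ 2 / δ * ρ + δ * ∫ x, ‖rt x‖ ^ 2 := by
    rw [Tint _ V2]
    gcongr
  have hb3 : ∑ j, ∫ x, T (db j V) x ≤ n * (M ^ 2 / δ * ρ) + δ * S := by
    calc ∑ j, ∫ x, T (db j V) x ≤ ∑ j : Fin n, (M ^ 2 / δ * ρ + δ * ∫ x, ‖db j f x‖ ^ 2) := by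
          apply Finset.sum_le_sum
          intro j _
          rw [Tint _ (dbV2 j)]
          have := mul_le_mul_of_nonneg_left (n5 j) hδ0.le
          linarith
      _ = _ := by
          rw [Finset.sum_add_distrib]
          simp only [Finset.sum_const, Finset.card_univ, Fintype.card_fin, nsmul_eq_mul]
          rw [← Finset.mul_sum, ← hS]
  have hb4 : ∑ j, ∫ x, T (dz j V) x ≤ n * (M ^ 2 / δ * ρ) + δ * S := by
    calc ∑ j, ∫ x, T (dz j V) x ≤ ∑ j : Fin n, (M ^ 2 / δ * ρ + δ * ∫ x, ‖db j f x‖ ^ 2) := by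
          apply Finset.sum_le_sum
          intro j _
          rw [Tint _ (dzV2 j)]
          have := mul_le_mul_of_nonneg_left (n4 j) hδ0.le
          linarith
      _ = _ := by
          rw [Finset.sum_add_distrib]
          simp only [Finset.sum_const, Finset.card_univ, Fintype.card_fin, nsmul_eq_mul]
          rw [← Finset.mul_sum, ← hS]
  have hlow : c0 * S ≤ Q.re := by
    have h1 : Q.re = ∫ x, (∑ j, db j f x * P j x).re := by
      have := integral_re (f := fun x => ∑ j, db j f x * P j x) (μ := (volume : Measure (E n)))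
        (integrable_finset_sum _ fun j _ => hQi j)
      exact this.symm
    rw [h1, hS, Finset.mul_sum]
    have h2 : ∑ j, c0 * ∫ x, ‖db j f x‖ ^ 2 = ∫ x, ∑ j, c0 * ‖db j f x‖ ^ 2 := by
      rw [integral_finset_sum _ fun j _ => (integrable_sq (memLp_of_test (dbfs j).continuous (dbfc j))).const_mul _]
      simp_rw [integral_const_mul]
    rw [h2]
    apply integral_mono
    · exact integrable_finset_sum _ fun j _ => (integrable_sq (memLp_of_test (dbfs j).continuous (dbfc j))).const_mul _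
    · exact (integrable_finset_sum _ fun j _ => hQi j).re
    · intro x
      dsimp only
      by_cases hx : x ∈ K
      · have := coer x hx (fun j => db j f x)
        rw [Finset.mul_sum] at this
        refine this.trans (le_of_eq ?_)
        congr 1
        apply Finset.sum_congr rfl
        intro j _
        show _ = db j f x * ∑ l, A j l x * dz l v x
        rw [Finset.mul_sum]
        apply Finset.sum_congr rfl
        intro l _
        rw [dzv]
      · have : ∀ j, db j f x = 0 := by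
          intro j
          apply image_eq_zero_of_notMem_tsupport
          intro h
          exact hx (hsub (tsupport_db_subset f j h))
        simp [this]
  have hfin : c0 * S ≤ (n ^ 2 + 1 + n + n) * (M ^ 2 / δ) * ρ + δ * (∫ x, ‖rt x‖ ^ 2)
      + δ * (2 + n * D ^ 2) * S := by
    have := hlow.trans ((Complex.re_le_norm Q).trans hQ4)
    rw [hint] at this
    nlinarith
  have hδ' : δ * (2 + n * D ^ 2) = c0 / 2 := by
    rw [hδ]
    field_simp
  rw [hδ'] at hfin
  have : S = (2 / c0) * (c0 / 2 * S) := by field_simp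
  rw [this]
  apply mul_le_mul_of_nonneg_left _ (by positivity)
  linarith

end A6

end Pool.Agent.helper63.NU
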