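import Pool.Agent.helper4.NU.A6c

set_option autoImplicit false
set_option linter.all false

/-! Module A6, part d: the equation satisfied by `χ r`, convex combinations. -/

open MeasureTheory Filter Topology Set
open scoped ContDiff Manifold Matrix ENNReal ComplexOrder

noncomputable section

namespace Pool.Agent.helper63.NU

namespace A6

variable {n : ℕ}

/-- a bounded sequence has convex combinations of its tails which are Cauchy, in a space with
the parallelogram identity -/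
theorem convex_cauchy {V : Type*} [AddCommGroup V] [Module ℝ V] (q : V → ℝ) (x : ℕ → V) (S : Set V)
    (hS : Convex ℝ S) (hx : ∀ i, x i ∈ S) (q0 : ∀ v, 0 ≤ q v)
    (hq : ∀ v ∈ S, ∀ w ∈ S, q (v - w) = 2 * q v + 2 * q w - 4 * q ((1/2 : ℝ) • v + (1/2 : ℝ) • w))
    (B : ℝ) (hB : ∀ i, q (x i) ≤ B) :
    ∃ y : ℕ → V, (∀ m, y m ∈ convexHull ℝ (x '' Ici m)) ∧
      ∀ ε > 0, ∃ N, ∀ m ≥ N, ∀ m' ≥ N, q (y m - y m') ≤ ε := by
  let H : ℕ → Set V := fun m => convexHull ℝ (x '' Ici m)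
  let d : ℕ → ℝ := fun m => sInf (q '' H m)
  have hHx : ∀ m, x m ∈ H m := fun m => subset_convexHull ℝ _ ⟨m, self_mem_Ici, rfl⟩
  have hne : ∀ m, (q '' H m).Nonempty := fun m => ⟨_, x m, hHx m, rfl⟩
  have hbb : ∀ m, BddBelow (q '' H m) := fun m => ⟨0, by rintro _ ⟨v, _, rfl⟩; exact q0 v⟩
  have hHm : ∀ {m m'}, m ≤ m' → H m' ⊆ H m := fun h =>
    convexHull_mono (image_mono (Ici_subset_Ici.2 h))
  have hHS : ∀ m, H m ⊆ S := fun m => convexHull_min (by rintro _ ⟨i, _, rfl⟩; exact hx i) hS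
  have dle : ∀ {m v}, v ∈ H m → d m ≤ q v := fun {m v} hv => csInf_le (hbb m) ⟨v, hv, rfl⟩
  have dmono : Monotone d := fun m m' h => csInf_le_csInf (hbb m) (hne m') (image_mono (hHm h))
  have dB : BddAbove (range d) := ⟨B, by rintro _ ⟨m, rfl⟩; exact (dle (hHx m)).trans (hB m)⟩
  have dlim := tendsto_atTop_ciSup dmono dB
  set D := ⨆ m, d m with hD
  have dD : ∀ m, d m ≤ D := fun m => le_ciSup dB m
  have hex : ∀ m : ℕ, ∃ v ∈ H m, q v < d m + 1 / ((m : ℝ) + 1) := by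
    intro m
    obtain ⟨_, ⟨v, hv, rfl⟩, h⟩ := exists_lt_of_csInf_lt (hne m)
      (show sInf (q '' H m) < d m + 1 / ((m : ℝ) + 1) by
        have : (0:ℝ) < 1 / ((m : ℝ) + 1) := by positivity
        show d m < _
        linarith)
    exact ⟨v, hv, h⟩
  choose y hy hyd using hex
  refine ⟨y, hy, fun ε hε => ?_⟩
  obtain ⟨N1, hN1⟩ := Metric.tendsto_atTop.1 dlim (ε / 8) (by positivity)
  obtain ⟨N2, hN2⟩ := exists_nat_gt (8 / ε)
  refine ⟨max N1 N2, fun m hm m' hm' => ?_⟩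
  set N := max N1 N2
  have hdN : D - d N < ε / 8 := by
    have := hN1 N (le_max_left _ _)
    rw [Real.dist_eq, abs_sub_comm, abs_lt] at this
    exact this.2
  have hmem : (1/2 : ℝ) • y m + (1/2 : ℝ) • y m' ∈ H N :=
    (convex_convexHull ℝ _) (hHm hm (hy m)) (hHm hm' (hy m')) (by norm_num) (by norm_num) (by norm_num)
  have h1 := dle hmem
  rw [hq _ (hHS _ (hy m)) _ (hHS _ (hy m'))]
  have hinv : ∀ p : ℕ, p ≥ N → 1 / ((p : ℝ) + 1) ≤ ε / 8 := by
    intro p hp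
    have h2 : (N2 : ℝ) ≤ p := by exact_mod_cast (le_max_right _ _).trans hp
    rw [div_le_iff₀ (by positivity)]
    have h3 : 8 / ε < p + 1 := by linarith
    rw [div_lt_iff₀ hε] at h3
    linarith
  have h2 := hyd m
  have h3 := hyd m'
  have h4 := hinv m hm
  have h5 := hinv m' hm'
  have h6 := dD m
  have h7 := dD m'
  linarith

section weak

variable {U : Set (E n)} {ψ : E n → ℝ} {χ V χ1 : E n → ℂ} {A : Fin n → Fin n → E n → ℂ}

/-- the product rule -/
theorem prod_rule (hA : ∀ j k, ContDiff ℝ ∞ (A j k)) (hχ : ContDiff ℝ ∞ χ) (hV : ContDiff ℝ ∞ V)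
    (x : E n) :
    ∑ j, db j (fun y => ∑ k, A j k y * dz k (fun z => χ z * V z) y) x =
      χ x * (∑ j, db j (fun y => ∑ k, A j k y * dz k V y) x)
      + (∑ j, db j (fun y => ∑ k, A j k y * dz k χ y) x) * V x
      + (∑ j, (∑ k, A j k x * dz k χ x) * db j V x) + ∑ l, (∑ j, db j χ x * A j l x) * dz l V x := by
  have hb : ∀ j, ContDiff ℝ ∞ (fun y => ∑ k, A j k y * dz k χ y) := fun j =>
    ContDiff.sum fun k _ => (hA j k).mul (contDiff_dz hχ k)
  have hP : ∀ j, ContDiff ℝ ∞ (fun y => ∑ k, A j k y * dz k V y) := fun j =>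
    ContDiff.sum fun k _ => (hA j k).mul (contDiff_dz hV k)
  have e1 : ∀ j, (fun y => ∑ k, A j k y * dz k (fun z => χ z * V z) y) =
      fun y => (∑ k, A j k y * dz k χ y) * V y + χ y * ∑ k, A j k y * dz k V y := by
    intro j
    ext y
    rw [Finset.sum_mul, Finset.mul_sum, ← Finset.sum_add_distrib]
    apply Finset.sum_congr rfl
    intro k _
    rw [dz_mul (hχ.differentiable (by simp) y) (hV.differentiable (by simp) y)]
    ring
  have e2 : ∀ j, db j (fun y => ∑ k, A j k y * dz k (fun z => χ z * V z) y) x =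
      (db j (fun y => ∑ k, A j k y * dz k χ y) x * V x + (∑ k, A j k x * dz k χ x) * db j V x)
      + (db j χ x * (∑ k, A j k x * dz k V x) + χ x * db j (fun y => ∑ k, A j k y * dz k V y) x) := by
    intro j
    rw [e1]
    have d1 := ((hb j).mul hV).differentiable (by simp) x
    have d2 := (hχ.mul (hP j)).differentiable (by simp) x
    rw [db_add d1 d2, db_mul ((hb j).differentiable (by simp) x) (hV.differentiable (by simp) x),
      db_mul (hχ.differentiable (by simp) x) ((hP j).differentiable (by simp) x)]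
  simp_rw [e2]
  rw [Finset.sum_add_distrib, Finset.sum_add_distrib, Finset.sum_add_distrib, ← Finset.mul_sum,
    ← Finset.sum_mul]
  have e3 : ∑ j, db j χ x * (∑ k, A j k x * dz k V x) = ∑ l, (∑ j, db j χ x * A j l x) * dz l V x := by
    simp_rw [Finset.mul_sum, Finset.sum_mul]
    rw [Finset.sum_comm]
    apply Finset.sum_congr rfl
    intro l _
    apply Finset.sum_congr rfl
    intro j _
    ring
  rw [e3]
  ring

/-- the adjoint operator in divergence form -/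
theorem bx_form (hU : IsOpen U) (hp : ∀ y ∈ U, (lev ψ y).PosDef) {v : E n → ℂ}
    (hA : ∀ j k, ∀ y ∈ U, A j k y * dz k v y = (Real.exp (-ψ y) : ℂ) * (lev ψ y)⁻¹ j k * dz k v y)
    {x : E n} (hx : x ∈ U) :
    ∑ j, db j (fun y => ∑ k, A j k y * dz k v y) x =
      -((starRingEnd ℂ) (bx ψ (fun z => (starRingEnd ℂ) (v z)) x) * (Real.exp (-ψ x) : ℂ)) := by
  unfold bx
  have e1 : ∀ j, (starRingEnd ℂ) (dz j (fun z => (Real.exp (-ψ z) : ℂ) *
      rs (lev ψ z) (dbv (fun z => (starRingEnd ℂ) (v z)) z) j) x)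
      = db j (fun y => ∑ k, A j k y * dz k v y) x := by
    intro j
    rw [← db_conj]
    apply db_congr
    filter_upwards [hU.mem_nhds hx] with y hy
    rw [map_mul, Complex.conj_ofReal]
    unfold rs
    rw [map_sum, Finset.mul_sum]
    apply Finset.sum_congr rfl
    intro k _
    rw [hA j k y hy, map_mul]
    have h1 : (starRingEnd ℂ) ((lev ψ y)⁻¹ k j) = (lev ψ y)⁻¹ j k :=
      (hp y hy).inv.isHermitian.apply j k
    have h2 : (starRingEnd ℂ) (dbv (fun z => (starRingEnd ℂ) (v z)) y k) = dz k v y := by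
      unfold dbv
      rw [db_conj, Complex.conj_conj]
    rw [h1, h2]
    ring
  rw [map_mul, map_neg, Complex.conj_ofReal, map_sum]
  simp_rw [e1]
  have h3 : (Real.exp (ψ x) : ℂ) * (Real.exp (-ψ x) : ℂ) = 1 := by
    rw [← Complex.ofReal_mul, ← Real.exp_add]
    simp
  calc _ = ((Real.exp (ψ x) : ℂ) * (Real.exp (-ψ x) : ℂ)) *
        ∑ j, db j (fun y => ∑ k, A j k y * dz k v y) x := by rw [h3, one_mul]
    _ = _ := by ring

end weak

/-- coercivity on a compact set -/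
theorem coercive {K : Set (E n)} (hK : IsCompact K) {A : Fin n → Fin n → E n → ℂ}
    (hA : ∀ j k, Continuous (A j k))
    (hpos : ∀ y ∈ K, ∀ ξ : Fin n → ℂ, ξ ≠ 0 →
      0 < (∑ j, ∑ k, ξ j * (A j k y * (starRingEnd ℂ) (ξ k))).re) :
    ∃ c0 : ℝ, 0 < c0 ∧ ∀ y ∈ K, ∀ ξ : Fin n → ℂ, c0 * ∑ j, ‖ξ j‖ ^ 2 ≤
      (∑ j, ∑ k, ξ j * (A j k y * (starRingEnd ℂ) (ξ k))).re := by
  let Φ : E n × (Fin n → ℂ) → ℝ := fun p =>
    (∑ j, ∑ k, p.2 j * (A j k p.1 * (starRingEnd ℂ) (p.2 k))).re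
  have hΦ : Continuous Φ := by
    apply Complex.continuous_re.comp
    apply continuous_finset_sum
    intro j _
    apply continuous_finset_sum
    intro k _
    have := hA j k
    have h2 : Continuous fun p : E n × (Fin n → ℂ) => (starRingEnd ℂ) (p.2 k) :=
      Complex.continuous_conj.comp (by fun_prop)
    fun_prop
  obtain ⟨m, hm, hmle⟩ : ∃ m : ℝ, 0 < m ∧ ∀ y ∈ K, ∀ ξ : Fin n → ℂ, ‖ξ‖ = 1 → m ≤ Φ (y, ξ) := by
    by_cases hne : (K ×ˢ Metric.sphere (0 : Fin n → ℂ) 1).Nonempty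
    · obtain ⟨p, hp, hpm⟩ := (hK.prod (isCompact_sphere (0 : Fin n → ℂ) 1)).exists_isMinOn hne
        hΦ.continuousOn
      refine ⟨Φ p, ?_, ?_⟩
      · apply hpos p.1 hp.1 p.2
        intro h0
        have := hp.2
        simp [h0] at this
      · intro y hy ξ hξ
        exact hpm (show (y, ξ) ∈ K ×ˢ Metric.sphere (0 : Fin n → ℂ) 1 from ⟨hy, by simp [hξ]⟩)
    · refine ⟨1, one_pos, fun y hy ξ hξ => ?_⟩
      exact absurd ⟨(y, ξ), hy, by simp [hξ]⟩ hne
  refine ⟨m / (n + 1), by positivity, fun y hy ξ => ?_⟩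
  by_cases h0 : ξ = 0
  · simp [h0]
  have ht : 0 < ‖ξ‖ := norm_pos_iff.2 h0
  set t := ‖ξ‖ with htdef
  have h1 := hmle y hy ((t⁻¹ : ℝ) • ξ) (by
    rw [norm_smul, norm_inv, Real.norm_eq_abs, abs_of_pos ht]
    exact inv_mul_cancel₀ ht.ne')
  have h2 : Φ (y, (t⁻¹ : ℝ) • ξ) = (t⁻¹) ^ 2 * Φ (y, ξ) := by
    have : ∑ j, ∑ k, ((t⁻¹ : ℝ) • ξ) j * (A j k y * (starRingEnd ℂ) (((t⁻¹ : ℝ) • ξ) k))
        = (((t⁻¹) ^ 2 : ℝ) : ℂ) * ∑ j, ∑ k, ξ j * (A j k y * (starRingEnd ℂ) (ξ k)) := by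
      rw [Finset.mul_sum]
      apply Finset.sum_congr rfl
      intro j _
      rw [Finset.mul_sum]
      apply Finset.sum_congr rfl
      intro k _
      simp only [Pi.smul_apply, Complex.real_smul, map_mul, Complex.conj_ofReal]
      push_cast
      ring
    show (∑ j, ∑ k, ((t⁻¹ : ℝ) • ξ) j * (A j k y * (starRingEnd ℂ) (((t⁻¹ : ℝ) • ξ) k))).re = _
    rw [this, Complex.re_ofReal_mul]
  rw [h2] at h1
  have h3 : m * t ^ 2 ≤ Φ (y, ξ) := by
    have := mul_le_mul_of_nonneg_right h1 (sq_nonneg t)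
    have e : t⁻¹ ^ 2 * Φ (y, ξ) * t ^ 2 = Φ (y, ξ) := by field_simp
    rwa [e] at this
  have h4 : ∑ j, ‖ξ j‖ ^ 2 ≤ n * t ^ 2 := by
    calc ∑ j, ‖ξ j‖ ^ 2 ≤ ∑ j : Fin n, t ^ 2 :=
          Finset.sum_le_sum fun j _ => pow_le_pow_left₀ (norm_nonneg _) (norm_le_pi_norm ξ j) 2
      _ = _ := by simp
  calc m / (n + 1) * ∑ j, ‖ξ j‖ ^ 2 ≤ m / (n + 1) * (n * t ^ 2) := by gcongr
    _ ≤ m * t ^ 2 := by
        rw [div_mul_eq_mul_div, div_le_iff₀ (by positivity)]
        nlinarith [mul_pos hm (pow_pos ht 2)]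
    _ ≤ _ := h3

end A6

end Pool.Agent.helper63.NU
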