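import Pool.Agent.helper4.NU.Q11b
import Pool.Agent.helper53.NU.Q8
import Pool.Agent.helper39.NU.Q8b

set_option autoImplicit false
set_option linter.all false

/-! Module Q11: sections of `-K` of the form `X^n g`. -/

open MeasureTheory Filter Topology Set
open scoped ContDiff Manifold Matrix ENNReal ComplexOrder

noncomputable section

namespace Pool.Agent.helper63.NU

namespace Q11aux

open Q12

variable {n : ℕ} {M : Type*} [TopologicalSpace M] [ChartedSpace (E n) M]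
  [IsManifold 𝓘(ℂ, E n) ω M]
variable [CompactSpace M] [T2Space M] [ConnectedSpace M]
variable [MeasurableSpace M] [BorelSpace M] {μ : Measure M} {φ : Fam n M ℝ}

/-- the local data on a ball -/
theorem local_ball {e : Ch n M} {p : E n} (hp : p ∈ e.target)
    {F : Fin n → Fam n M ℂ} {X : Fin n → E n → ℂ} (hX : ∀ j, HolAt (X j) p)
    (hX1 : ∀ j, VanO (fun y => X j y - (y j - p j)) p 2)
    (hFX : ∀ j, ∀ᶠ y in 𝓝 p, F j e y = X j y ^ (n + 1)) :
    ∃ R > 0, Metric.ball p R ⊆ e.target ∧ (∀ j, DifferentiableOn ℂ (X j) (Metric.ball p R)) ∧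
      (∀ j, ∀ y ∈ Metric.ball p R, ‖X j y - (y j - p j)‖ ≤ ‖y - p‖ / 2) ∧
      ∀ j, ∀ y ∈ Metric.ball p R, F j e y = X j y ^ (n + 1) := by
  have h1 : ∀ j, ∀ᶠ y in 𝓝 p, ‖X j y - (y j - p j)‖ ≤ ‖y - p‖ / 2 := by
    intro j
    obtain ⟨K, hK0, hK⟩ := vpos (hX1 j)
    have h2 : ∀ᶠ y in 𝓝 p, K * ‖y - p‖ < 1 / 2 := by
      have hc : ContinuousAt (fun y : E n => K * ‖y - p‖) p := by fun_prop
      exact hc.eventually_lt continuousAt_const (by simp)
    filter_upwards [hK, h2] with y h3 h4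
    refine h3.trans ?_
    have h5 := norm_nonneg (y - p)
    nlinarith
  have h0 : ∀ᶠ y in 𝓝 p, y ∈ e.target := e.open_target.mem_nhds hp
  have h2 : ∀ᶠ y in 𝓝 p, y ∈ e.target ∧ (∀ j, DifferentiableAt ℂ (X j) y) ∧
      (∀ j, ‖X j y - (y j - p j)‖ ≤ ‖y - p‖ / 2) ∧ ∀ j, F j e y = X j y ^ (n + 1) :=
    h0.and ((eventually_all.2 hX).and ((eventually_all.2 h1).and (eventually_all.2 hFX)))
  obtain ⟨R, hR, hb⟩ := Metric.eventually_nhds_iff_ball.1 h2
  exact ⟨R, hR, fun y hy => (hb y hy).1, fun j y hy => ((hb y hy).2.1 j).differentiableWithinAt,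
    fun j y hy => (hb y hy).2.2.1 j, fun j y hy => (hb y hy).2.2.2 j⟩

/-- the families -/
def tt (n : ℕ) {M : Type*} [TopologicalSpace M] (hn : 0 < n) (F : Fin n → Fam n M ℂ) (i : Fin 2)
    (j : Fin n) : Fam n M ℂ := if i = 0 then F ⟨0, hn⟩ else F j

/-- the exponents -/
def aa (n : ℕ) : Fin 2 → ℝ := ![(n : ℝ) / (n + 1), 1 + 1 / (2 * (n + 1))]

/-- the weight -/
def W0 (n : ℕ) {M : Type*} [TopologicalSpace M] [ChartedSpace (E n) M] (hn : 0 < n)
    (F : Fin n → Fam n M ℂ) (φ : Fam n M ℝ) (x : M) : ℝ≥0∞ :=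
  WT φ (fun _ => 1) (fun _ => n) (tt n hn F) (aa n) x

omit [IsManifold 𝓘(ℂ, E n) ω M] [CompactSpace M] [T2Space M] [ConnectedSpace M]
  [MeasurableSpace M] [BorelSpace M] in
theorem W0_eq (hn : 0 < n) (F : Fin n → Fam n M ℂ) (x : M) :
    W0 n hn F φ x = (ENNReal.ofReal (n * nrm 1 φ (F ⟨0, hn⟩) x)) ^ (-((n : ℝ) / (n + 1))) *
      (ENNReal.ofReal (∑ j, nrm 1 φ (F j) x)) ^ (-(1 + 1 / (2 * ((n : ℝ) + 1)))) := by
  unfold W0 WT
  rw [Fin.prod_univ_two]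
  congr 2
  · congr 1
    simp [tt, Finset.sum_const]

omit [CompactSpace M] [T2Space M] [ConnectedSpace M] in
theorem W0_chart (hn : 0 < n) (hφ : IsPos 1 φ) {e : Ch n M} (he : e ∈ atlas (E n) M) {p : E n}
    {F : Fin n → Fam n M ℂ} (hF : ∀ j, F j ∈ H0 n M 1) {X : Fin n → E n → ℂ} {y : E n}
    (hy : y ∈ e.target) (hFX : ∀ j, F j e y = X j y ^ (n + 1)) :
    W0 n hn F φ (e.symm y) =
      (ENNReal.ofReal (n * Real.exp (-φ e y) * ‖X ⟨0, hn⟩ y‖ ^ (2 * (n + 1)))) ^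
        (-((n : ℝ) / (n + 1))) *
      (ENNReal.ofReal (∑ j, ‖X j y‖ ^ (2 * (n + 1)) * Real.exp (-φ e y))) ^
        (-(1 + 1 / (2 * ((n : ℝ) + 1)))) := by
  have h1 : ∀ j, nrm 1 φ (F j) (e.symm y) = ‖X j y‖ ^ (2 * (n + 1)) * Real.exp (-φ e y) := by
    intro j
    rw [nrm_eq hφ.toIsWeight (hF j).1.toIsSec he (e.map_target hy), e.right_inv hy, hFX j,
      norm_pow, ← pow_mul]
    congr 2
    · ring
    · simp
  rw [W0_eq, h1]
  simp only [h1]
  congr 3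
  ring

omit [CompactSpace M] [T2Space M] [ConnectedSpace M] in
/-- upper bound of the weight on the annulus -/
theorem W0_upper (hn : 0 < n) (hφ : IsPos 1 φ) {e : Ch n M} (he : e ∈ atlas (E n) M) {p : E n}
    {F : Fin n → Fam n M ℂ} (hF : ∀ j, F j ∈ H0 n M 1) {X : Fin n → E n → ℂ} {y : E n}
    (hy : y ∈ e.target) (hFX : ∀ j, F j e y = X j y ^ (n + 1))
    (hX : ∀ j, ‖X j y - (y j - p j)‖ ≤ ‖y - p‖ / 2) {Φ δ : ℝ} (hΦ : |φ e y| ≤ Φ) (hδ : 0 < δ)
    (hyp : δ ≤ ‖y - p‖) :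
    W0 n hn F φ (e.symm y) ≤
      ((ENNReal.ofReal (n * Real.exp (-Φ))) ^ (-((n : ℝ) / (n + 1))) *
        (ENNReal.ofReal ((δ / 2) ^ (2 * (n + 1)) * Real.exp (-Φ))) ^
          (-(1 + 1 / (2 * ((n : ℝ) + 1))))) *
      (ENNReal.ofReal ‖X ⟨0, hn⟩ y‖) ^ (-(2 * (n : ℝ))) := by
  have hn0 : (0 : ℝ) < n := by exact_mod_cast hn
  have he1 : Real.exp (-Φ) ≤ Real.exp (-φ e y) := Real.exp_le_exp.2 (by
    have := (abs_le.1 hΦ).2; linarith)
  rw [W0_chart hn hφ he (p := p) hF hy hFX, rmul _ _ (by positivity) (norm_nonneg _)]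
  have h1 : -(((2 * (n + 1) : ℕ) : ℝ) * ((n : ℝ) / (n + 1))) = -(2 * (n : ℝ)) := by
    push_cast
    field_simp
  rw [h1]
  have h2 : (ENNReal.ofReal (n * Real.exp (-φ e y))) ^ (-((n : ℝ) / (n + 1))) ≤
      (ENNReal.ofReal (n * Real.exp (-Φ))) ^ (-((n : ℝ) / (n + 1))) :=
    rneg_le (ENNReal.ofReal_le_ofReal (by gcongr)) (by positivity)
  obtain ⟨j, hj⟩ : ∃ j, ‖(y - p) j‖ = ‖y - p‖ := by
    by_contra hcon
    push Not at hcon
    have h0 : ‖y - p‖ < ‖y - p‖ := (pi_norm_lt_iff (hδ.trans_le hyp)).2 fun j =>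
      lt_of_le_of_ne (norm_le_pi_norm (y - p) j) (hcon j)
    exact lt_irrefl _ h0
  have h3 : δ / 2 ≤ ‖X j y‖ := by
    have a1 : ‖(y - p) j‖ ≤ ‖X j y‖ + ‖X j y - (y j - p j)‖ := by
      have : (y - p) j = X j y - (X j y - (y j - p j)) := by
        rw [Pi.sub_apply]; ring
      rw [this]
      exact norm_sub_le _ _
    have := hX j
    rw [hj] at a1
    linarith
  have h4 : (ENNReal.ofReal (∑ j, ‖X j y‖ ^ (2 * (n + 1)) * Real.exp (-φ e y))) ^
        (-(1 + 1 / (2 * ((n : ℝ) + 1)))) ≤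
      (ENNReal.ofReal ((δ / 2) ^ (2 * (n + 1)) * Real.exp (-Φ))) ^
          (-(1 + 1 / (2 * ((n : ℝ) + 1)))) := by
    refine rneg_le (ENNReal.ofReal_le_ofReal ?_) (by positivity)
    calc (δ / 2) ^ (2 * (n + 1)) * Real.exp (-Φ)
        ≤ ‖X j y‖ ^ (2 * (n + 1)) * Real.exp (-φ e y) := by gcongr
      _ ≤ _ := Finset.single_le_sum (f := fun j => ‖X j y‖ ^ (2 * (n + 1)) * Real.exp (-φ e y))
          (fun j _ => by positivity) (Finset.mem_univ j)
  calc _ ≤ (ENNReal.ofReal (n * Real.exp (-Φ))) ^ (-((n : ℝ) / (n + 1))) *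
        (ENNReal.ofReal ‖X ⟨0, hn⟩ y‖) ^ (-(2 * (n : ℝ))) *
        (ENNReal.ofReal ((δ / 2) ^ (2 * (n + 1)) * Real.exp (-Φ))) ^
          (-(1 + 1 / (2 * ((n : ℝ) + 1)))) := by gcongr
    _ = _ := by ring

omit [CompactSpace M] [T2Space M] [ConnectedSpace M] in
/-- lower bound of the weight -/
theorem W0_lower (hn : 0 < n) (hφ : IsPos 1 φ) {e : Ch n M} (he : e ∈ atlas (E n) M) {p : E n}
    {F : Fin n → Fam n M ℂ} (hF : ∀ j, F j ∈ H0 n M 1) {X : Fin n → E n → ℂ} {y : E n}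
    (hy : y ∈ e.target) (hFX : ∀ j, F j e y = X j y ^ (n + 1))
    (hX : ∀ j, ‖X j y - (y j - p j)‖ ≤ ‖y - p‖ / 2) {Φ : ℝ} (hΦ : |φ e y| ≤ Φ) :
    ((ENNReal.ofReal (n * Real.exp Φ)) ^ (-((n : ℝ) / (n + 1))) *
        (ENNReal.ofReal (n * ((3 / 2) ^ (2 * (n + 1)) * Real.exp Φ))) ^
          (-(1 + 1 / (2 * ((n : ℝ) + 1))))) *
      ((ENNReal.ofReal ‖X ⟨0, hn⟩ y‖) ^ (-(2 * (n : ℝ))) *
        (ENNReal.ofReal ‖y - p‖) ^ (-(2 * ((n : ℝ) + 3 / 2)))) ≤ W0 n hn F φ (e.symm y) := by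
  have hn0 : (0 : ℝ) < n := by exact_mod_cast hn
  have he1 : Real.exp (-φ e y) ≤ Real.exp Φ := Real.exp_le_exp.2 (by
    have := (abs_le.1 hΦ).1; linarith)
  rw [W0_chart hn hφ he (p := p) hF hy hFX, rmul _ _ (by positivity) (norm_nonneg _)]
  have h1 : -(((2 * (n + 1) : ℕ) : ℝ) * ((n : ℝ) / (n + 1))) = -(2 * (n : ℝ)) := by
    push_cast
    field_simp
  rw [h1]
  have h2 : (ENNReal.ofReal (n * Real.exp Φ)) ^ (-((n : ℝ) / (n + 1))) ≤
      (ENNReal.ofReal (n * Real.exp (-φ e y))) ^ (-((n : ℝ) / (n + 1))) :=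
    rneg_le (ENNReal.ofReal_le_ofReal (by gcongr)) (by positivity)
  have h3 : ∀ j, ‖X j y‖ ≤ 3 / 2 * ‖y - p‖ := by
    intro j
    have a1 : ‖X j y‖ ≤ ‖X j y - (y j - p j)‖ + ‖(y - p) j‖ := by
      have : X j y = (X j y - (y j - p j)) + (y - p) j := by
        rw [Pi.sub_apply]; ring
      calc ‖X j y‖ = ‖(X j y - (y j - p j)) + (y - p) j‖ := by rw [← this]
        _ ≤ _ := norm_add_le _ _
    have := hX j
    have a2 := norm_le_pi_norm (y - p) j
    linarith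
  have h4 : (ENNReal.ofReal (n * ((3 / 2) ^ (2 * (n + 1)) * Real.exp Φ))) ^
          (-(1 + 1 / (2 * ((n : ℝ) + 1)))) *
        (ENNReal.ofReal ‖y - p‖) ^ (-(2 * ((n : ℝ) + 3 / 2))) ≤
      (ENNReal.ofReal (∑ j, ‖X j y‖ ^ (2 * (n + 1)) * Real.exp (-φ e y))) ^
        (-(1 + 1 / (2 * ((n : ℝ) + 1)))) := by
    have a3 : -(2 * ((n : ℝ) + 3 / 2)) =
        -(((2 * (n + 1) : ℕ) : ℝ) * (1 + 1 / (2 * ((n : ℝ) + 1)))) := by
      push_cast
      field_simp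
      ring
    rw [a3, ← rmul _ _ (by positivity) (norm_nonneg _)]
    refine rneg_le (ENNReal.ofReal_le_ofReal ?_) (by positivity)
    calc ∑ j, ‖X j y‖ ^ (2 * (n + 1)) * Real.exp (-φ e y)
        ≤ ∑ j : Fin n, (3 / 2 * ‖y - p‖) ^ (2 * (n + 1)) * Real.exp Φ := by
          refine Finset.sum_le_sum fun j _ => ?_
          have := h3 j
          gcongr
      _ = _ := by
          rw [Finset.sum_const, Finset.card_univ, Fintype.card_fin, nsmul_eq_mul, mul_pow]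
          ring
  calc _ = (ENNReal.ofReal (n * Real.exp Φ)) ^ (-((n : ℝ) / (n + 1))) *
        (ENNReal.ofReal ‖X ⟨0, hn⟩ y‖) ^ (-(2 * (n : ℝ))) *
        ((ENNReal.ofReal (n * ((3 / 2) ^ (2 * (n + 1)) * Real.exp Φ))) ^
          (-(1 + 1 / (2 * ((n : ℝ) + 1)))) *
        (ENNReal.ofReal ‖y - p‖) ^ (-(2 * ((n : ℝ) + 3 / 2)))) := by ring
    _ ≤ _ := by gcongr

/-- division of `X^n l` -/
theorem div_section (hn : 0 < n) (hφ : IsPos 1 φ) (hμ : IsDens μ φ) {e : Ch n M}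
    (he : e ∈ atlas (E n) M) {p : E n} (hp : p ∈ e.target)
    {F : Fin n → Fam n M ℂ} (hF : ∀ j, F j ∈ H0 n M 1) {X : Fin n → E n → ℂ}
    (hX : ∀ j, HolAt (X j) p) (hX1 : ∀ j, VanO (fun y => X j y - (y j - p j)) p 2)
    (hFX : ∀ j, ∀ᶠ y in 𝓝 p, F j e y = X j y ^ (n + 1)) {l : E n → ℂ} (hl : Differentiable ℂ l) :
    ∃ g : E n → ℂ, HolAt g p ∧ VanO (fun y => g y - l y) p 2 ∧
      ∃ s ∈ H0 n M 1, ∀ᶠ y in 𝓝 p, s e y = X ⟨0, hn⟩ y ^ n * g y := by
  obtain ⟨R, hR, hb1, hb2, hb3, hb4⟩ := local_ball hp hX hX1 hFX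
  set ρ : ℝ := R / 2 with hρdef
  have hρ : 0 < ρ := by positivity
  have hρR : ρ < R := by rw [hρdef]; linarith
  have hKR : Metric.closedBall p ρ ⊆ Metric.ball p R := Metric.closedBall_subset_ball hρR
  have hKe : Metric.closedBall p ρ ⊆ e.target := hKR.trans hb1
  have hK : IsCompact (Metric.closedBall p ρ) := isCompact_closedBall p ρ
  -- the cutoff function
  let χ : ContDiffBump p := ⟨ρ / 2, ρ, by positivity, by linarith⟩
  have hχc : ContDiff ℝ ∞ (fun y => ((χ y : ℝ) : ℂ)) :=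
    Complex.ofRealCLM.contDiff.comp χ.contDiff
  have hχt : tsupport (fun y => ((χ y : ℝ) : ℂ)) ⊆ Metric.closedBall p ρ := by
    refine closure_minimal ?_ Metric.isClosed_closedBall
    intro y hy
    have hy' : χ y ≠ 0 := fun h => hy (by show ((χ y : ℝ) : ℂ) = 0; rw [h]; simp)
    have : y ∈ Function.support χ := hy'
    rw [χ.support_eq] at this
    exact Metric.ball_subset_closedBall this
  set P : E n → ℂ := fun y => X ⟨0, hn⟩ y ^ n * l y with hPdef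
  have hPd : DifferentiableOn ℂ P (Metric.ball p R) :=
    ((hb2 _).pow n).mul hl.differentiableOn
  set u : E n → ℂ := fun y => P y * ((χ y : ℝ) : ℂ) with hudef
  have hu : ContDiff ℝ ∞ u :=
    contDiff_mul_test Metric.isOpen_ball (contDiffOn_real_of_hol Metric.isOpen_ball hPd) hχc
      (hχt.trans hKR)
  have hut : tsupport u ⊆ Metric.closedBall p ρ :=
    (tsupport_mul_subset_right (f := P) (g := fun y => ((χ y : ℝ) : ℂ))).trans hχt
  have huc : HasCompactSupport u := hK.of_isClosed_subset (isClosed_tsupport u) hut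
  have hσ : IsSec 1 (ext 1 e u : Fam n M ℂ) := ext_isSec 1 he hu huc (hut.trans hKe)
  set σ : Fam n M ℂ := ext 1 e u with hσdef
  -- bounds
  obtain ⟨Φ, hΦ0, hΦ⟩ := upper_bound hK (f := fun y => |φ e y|)
    ((hφ.smooth e he).continuousOn.mono hKe).abs
  have hdχ : Continuous (fun y => dbv (fun y => ((χ y : ℝ) : ℂ)) y) := by
    refine continuous_pi fun j => ?_
    exact (contDiff_db hχc j).continuous
  obtain ⟨A, hA0, hA⟩ := upper_bound hK (f := fun y => ‖dbv (fun y => ((χ y : ℝ) : ℂ)) y‖)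
    hdχ.norm.continuousOn
  obtain ⟨C1, hC10, hC1⟩ := cn_upper e.open_target (hφ.smooth e he) (hφ.pos e he) hK hKe A
  obtain ⟨Lb, hLb0, hLb⟩ := upper_bound hK (f := fun y => ‖l y‖) hl.continuous.norm.continuousOn
  have hsymm : ∀ y ∈ e.target, e (e.symm y) = y := fun y hy => e.right_inv hy
  have hdbv : ∀ y ∈ Metric.closedBall p ρ, dbv (σ e) y =
      fun j => P y * dbv (fun y => ((χ y : ℝ) : ℂ)) y j := by
    intro y hy
    funext j
    have h1 : σ e =ᶠ[𝓝 y] fun z => P z * ((χ z : ℝ) : ℂ) := by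
      filter_upwards [e.open_target.mem_nhds (hKe hy)] with z hz
      exact ext_apply 1 he u hz
    have h2 : DifferentiableAt ℂ P y := hPd.differentiableAt (Metric.isOpen_ball.mem_nhds (hKR hy))
    have h3 : DifferentiableAt ℝ (fun z => ((χ z : ℝ) : ℂ)) y :=
      (hχc.differentiable (by simp)) y
    unfold dbv
    rw [db_congr h1 j, db_mul (h2.restrictScalars ℝ) h3 j, db_hol h2 j, zero_mul, zero_add]
  have heg : ∀ y ∈ Metric.closedBall p ρ, eg 1 φ σ (e.symm y) ≤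
      ‖X ⟨0, hn⟩ y‖ ^ (2 * n) * (Lb ^ 2 * C1 * Real.exp Φ) := by
    intro y hy
    rw [eg_eq hφ hσ he (e.map_target (hKe hy)), hsymm y (hKe hy), hdbv y hy, cn_smul]
    have h1 := hC1 y hy _ (hA y hy)
    have h2 : Real.exp (-(((1 : ℕ) : ℝ) * φ e y)) ≤ Real.exp Φ := by
      have := (abs_le.1 (hΦ y hy)).1
      exact Real.exp_le_exp.2 (by push_cast; linarith)
    have h3 : ‖P y‖ ^ 2 ≤ ‖X ⟨0, hn⟩ y‖ ^ (2 * n) * Lb ^ 2 := by
      rw [hPdef, norm_mul, mul_pow, norm_pow, ← pow_mul, mul_comm n 2]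
      have := hLb y hy
      gcongr
    calc ‖P y‖ ^ 2 * (cn (lev (φ e) y) (dbv (fun y => ((χ y : ℝ) : ℂ)) y)
          (dbv (fun y => ((χ y : ℝ) : ℂ)) y)).re * Real.exp (-(((1 : ℕ) : ℝ) * φ e y))
        ≤ ‖P y‖ ^ 2 * C1 * Real.exp (-(((1 : ℕ) : ℝ) * φ e y)) := by gcongr
      _ ≤ (‖X ⟨0, hn⟩ y‖ ^ (2 * n) * Lb ^ 2) * C1 * Real.exp Φ := by gcongr
      _ = _ := by ring
  have heg0 : ∀ y ∈ Metric.ball p (ρ / 2), eg 1 φ σ (e.symm y) = 0 := by
    intro y hy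
    have hy' : y ∈ Metric.closedBall p ρ := Metric.mem_closedBall.2
      ((Metric.mem_ball.1 hy).le.trans (by linarith))
    have h1 : (fun z => ((χ z : ℝ) : ℂ)) =ᶠ[𝓝 y] fun _ => 1 := by
      filter_upwards [Metric.isOpen_ball.mem_nhds hy] with z hz
      rw [χ.one_of_mem_closedBall (Metric.ball_subset_closedBall hz)]
      simp
    have h2 : dbv (σ e) y = fun _ => 0 := by
      rw [hdbv y hy']
      funext j
      unfold dbv
      rw [db_congr h1 j, db_const, mul_zero]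
    rw [eg_eq hφ hσ he (e.map_target (hKe hy')), hsymm y (hKe hy'), h2, cn_zero]
    simp
  haveI := isFiniteMeasure_of_isDens hφ.toIsWeight hμ
  -- finiteness
  obtain ⟨CC, hCC, hbd⟩ : ∃ CC : ℝ≥0∞, CC ≠ ⊤ ∧ ∀ x : M,
      W0 n hn F φ x * ENNReal.ofReal (eg 1 φ σ x) ≤ CC := by
    have hn0 : (0 : ℝ) < n := by exact_mod_cast hn
    refine ⟨((ENNReal.ofReal (n * Real.exp (-Φ))) ^ (-((n : ℝ) / (n + 1))) *
        (ENNReal.ofReal ((ρ / 2 / 2) ^ (2 * (n + 1)) * Real.exp (-Φ))) ^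
          (-(1 + 1 / (2 * ((n : ℝ) + 1))))) * ENNReal.ofReal (Lb ^ 2 * C1 * Real.exp Φ),
      ENNReal.mul_ne_top (ENNReal.mul_ne_top (rneg_ne_top (by positivity) _)
        (rneg_ne_top (by positivity) _)) ENNReal.ofReal_ne_top, ?_⟩
    intro x
    by_cases hx : x ∈ e.symm '' Metric.closedBall p ρ
    · obtain ⟨y, hy, rfl⟩ := hx
      by_cases hyp : y ∈ Metric.ball p (ρ / 2)
      · rw [heg0 y hyp, ENNReal.ofReal_zero, mul_zero]; exact zero_le
      · have hyp' : ρ / 2 ≤ ‖y - p‖ := by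
          rw [Metric.mem_ball, not_lt, dist_eq_norm] at hyp
          exact hyp
        have h1 := W0_upper hn hφ he hF (hKe hy) (fun j => hb4 j y (hKR hy))
          (fun j => hb3 j y (hKR hy)) (hΦ y hy) (by positivity) hyp'
        have h2 : ENNReal.ofReal (eg 1 φ σ (e.symm y)) ≤
            (ENNReal.ofReal ‖X ⟨0, hn⟩ y‖) ^ (2 * (n : ℝ)) *
              ENNReal.ofReal (Lb ^ 2 * C1 * Real.exp Φ) := by
          refine (ENNReal.ofReal_le_ofReal (heg y hy)).trans_eq ?_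
          rw [ENNReal.ofReal_mul (by positivity), ENNReal.ofReal_pow (norm_nonneg _),
            ← ENNReal.rpow_natCast]
          congr 2
          push_cast
          ring
        calc _ ≤ ((ENNReal.ofReal (n * Real.exp (-Φ))) ^ (-((n : ℝ) / (n + 1))) *
                (ENNReal.ofReal ((ρ / 2 / 2) ^ (2 * (n + 1)) * Real.exp (-Φ))) ^
                  (-(1 + 1 / (2 * ((n : ℝ) + 1))))) *
              (ENNReal.ofReal ‖X ⟨0, hn⟩ y‖) ^ (-(2 * (n : ℝ))) *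
              ((ENNReal.ofReal ‖X ⟨0, hn⟩ y‖) ^ (2 * (n : ℝ)) *
              ENNReal.ofReal (Lb ^ 2 * C1 * Real.exp Φ)) := by gcongr
          _ = ((ENNReal.ofReal (n * Real.exp (-Φ))) ^ (-((n : ℝ) / (n + 1))) *
                (ENNReal.ofReal ((ρ / 2 / 2) ^ (2 * (n + 1)) * Real.exp (-Φ))) ^
                  (-(1 + 1 / (2 * ((n : ℝ) + 1))))) * ENNReal.ofReal (Lb ^ 2 * C1 * Real.exp Φ) *
              ((ENNReal.ofReal ‖X ⟨0, hn⟩ y‖) ^ (-(2 * (n : ℝ))) *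
              (ENNReal.ofReal ‖X ⟨0, hn⟩ y‖) ^ (2 * (n : ℝ))) := by ring
          _ ≤ ((ENNReal.ofReal (n * Real.exp (-Φ))) ^ (-((n : ℝ) / (n + 1))) *
                (ENNReal.ofReal ((ρ / 2 / 2) ^ (2 * (n + 1)) * Real.exp (-Φ))) ^
                  (-(1 + 1 / (2 * ((n : ℝ) + 1))))) *
                ENNReal.ofReal (Lb ^ 2 * C1 * Real.exp Φ) * 1 := by
              gcongr
              exact cancel_le _ _
          _ = _ := mul_one _
    · rw [hσdef, eg_ext_zero 1 hK hKe hut hx, ENNReal.ofReal_zero, mul_zero]; exact zero_le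
  have hfin : ∫⁻ x, W0 n hn F φ x * ENNReal.ofReal (eg 1 φ σ x) ∂μ ≠ ⊤ := by
    refine ne_top_of_le_ne_top ?_ (lintegral_mono hbd)
    rw [lintegral_const]
    exact ENNReal.mul_ne_top hCC (measure_ne_top μ _)
  have hn1 : (0 : ℝ) < (n : ℝ) + 1 := by positivity
  obtain ⟨h, hh, hhint⟩ := horm_sing hφ hμ (k := 1) le_rfl (r := 2) (L := fun _ => 1)
    (q := fun _ => n) (t := tt n hn F) (fun i β => by
      unfold tt
      split_ifs
      · exact (hF _).1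
      · exact (hF _).1) (a := aa n) (fun i => by
      fin_cases i
      · show 0 ≤ (n : ℝ) / (n + 1); positivity
      · show 0 ≤ 1 + 1 / (2 * ((n : ℝ) + 1)); positivity) (a0 := 1 / (2 * ((n : ℝ) + 1)))
    (by positivity) (by
      rw [Fin.sum_univ_two]
      show 1 / (2 * ((n : ℝ) + 1)) + ((n : ℝ) / (n + 1) * ((1 : ℕ) : ℝ) +
        (1 + 1 / (2 * ((n : ℝ) + 1))) * ((1 : ℕ) : ℝ)) = ((1 : ℕ) : ℝ) + 1
      push_cast
      field_simp
      ring) hσ hfin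
  have hT : ∫⁻ x, W0 n hn F φ x * ENNReal.ofReal (nrm 1 φ (σ - h) x) ∂μ ≠ ⊤ :=
    ne_top_of_le_ne_top (ENNReal.mul_ne_top ENNReal.ofReal_ne_top hfin) hhint
  have hsub : IsSec 1 (σ - h) := hσ.sub hh.1.toIsSec
  have hmeasW : Measurable (W0 n hn F φ) := by
    have h1 : ∀ j, Measurable (nrm 1 φ (F j)) := fun j =>
      (continuous_nrm hφ.toIsWeight (hF j).1.toIsSec).measurable
    have h2 : W0 n hn F φ = fun x => (ENNReal.ofReal (n * nrm 1 φ (F ⟨0, hn⟩) x)) ^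
        (-((n : ℝ) / (n + 1))) *
      (ENNReal.ofReal (∑ j, nrm 1 φ (F j) x)) ^ (-(1 + 1 / (2 * ((n : ℝ) + 1)))) :=
      funext (W0_eq hn F)
    rw [h2]
    refine Measurable.mul ?_ ?_
    · exact (ENNReal.measurable_ofReal.comp ((h1 _).const_mul _)).pow_const _
    · exact (ENNReal.measurable_ofReal.comp
        (Finset.measurable_sum Finset.univ fun j _ => h1 j)).pow_const _
  have hchart := hμ e he (fun x => W0 n hn F φ x * ENNReal.ofReal (nrm 1 φ (σ - h) x))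
    (hmeasW.mul (ENNReal.measurable_ofReal.comp (continuous_nrm hφ.toIsWeight hsub).measurable))
  have hT2 : ∫⁻ y in e.target, (W0 n hn F φ (e.symm y) *
      ENNReal.ofReal (nrm 1 φ (σ - h) (e.symm y))) * ENNReal.ofReal (Real.exp (-φ e y)) ≠ ⊤ := by
    rw [← hchart]
    exact ne_top_of_le_ne_top hT (setLIntegral_le_lintegral _ _)
  have hn0 : (0 : ℝ) < n := by exact_mod_cast hn
  have hBK : Metric.ball p (ρ / 2) ⊆ Metric.closedBall p ρ := fun y hy =>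
    Metric.mem_closedBall.2 ((Metric.mem_ball.1 hy).le.trans (by linarith))
  set f : E n → ℂ := fun y => P y - h e y with hfdef
  set c2 : ℝ≥0∞ := (ENNReal.ofReal (n * Real.exp Φ)) ^ (-((n : ℝ) / (n + 1))) *
        (ENNReal.ofReal (n * ((3 / 2) ^ (2 * (n + 1)) * Real.exp Φ))) ^
          (-(1 + 1 / (2 * ((n : ℝ) + 1)))) with hc2
  have hpt : ∀ y ∈ Metric.ball p (ρ / 2),
      (c2 * (ENNReal.ofReal (Real.exp (-Φ)) * ENNReal.ofReal (Real.exp (-Φ)))) *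
        (ENNReal.ofReal (‖f y‖ ^ 2) * (ENNReal.ofReal ‖X ⟨0, hn⟩ y‖) ^ (-2 * (n : ℝ)) *
          (ENNReal.ofReal ‖y - p‖) ^ (-2 * ((n : ℝ) + 3 / 2))) ≤
      (W0 n hn F φ (e.symm y) * ENNReal.ofReal (nrm 1 φ (σ - h) (e.symm y))) *
        ENNReal.ofReal (Real.exp (-φ e y)) := by
    intro y hy
    have hyK := hBK hy
    have h1 := W0_lower hn hφ he hF (hKe hyK) (fun j => hb4 j y (hKR hyK))
          (fun j => hb3 j y (hKR hyK)) (hΦ y hyK)
    rw [← hc2] at h1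
    have h2 : Real.exp (-Φ) ≤ Real.exp (-φ e y) := Real.exp_le_exp.2 (by
      have := (abs_le.1 (hΦ y hyK)).2; linarith)
    have h3 : (σ - h) e y = f y := by
      show σ e y - h e y = P y - h e y
      have : σ e y = u y := ext_apply 1 he u (hKe hyK)
      rw [this, hudef]
      show P y * ((χ y : ℝ) : ℂ) - h e y = P y - h e y
      rw [χ.one_of_mem_closedBall (Metric.ball_subset_closedBall hy)]
      simp
    have h4 : ENNReal.ofReal (‖f y‖ ^ 2) * ENNReal.ofReal (Real.exp (-Φ)) ≤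
        ENNReal.ofReal (nrm 1 φ (σ - h) (e.symm y)) := by
      rw [nrm_eq hφ.toIsWeight hsub he (e.map_target (hKe hyK)), hsymm y (hKe hyK), h3,
        ← ENNReal.ofReal_mul (by positivity)]
      refine ENNReal.ofReal_le_ofReal ?_
      have : Real.exp (-Φ) ≤ Real.exp (-(((1 : ℕ) : ℝ) * φ e y)) := by
        simpa using h2
      gcongr
    have h5 : ENNReal.ofReal (Real.exp (-Φ)) ≤ ENNReal.ofReal (Real.exp (-φ e y)) :=
      ENNReal.ofReal_le_ofReal h2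
    calc _ = (c2 * ((ENNReal.ofReal ‖X ⟨0, hn⟩ y‖) ^ (-(2 * (n : ℝ))) *
            (ENNReal.ofReal ‖y - p‖) ^ (-(2 * ((n : ℝ) + 3 / 2))))) *
          (ENNReal.ofReal (‖f y‖ ^ 2) * ENNReal.ofReal (Real.exp (-Φ))) *
          ENNReal.ofReal (Real.exp (-Φ)) := by
          rw [neg_mul, neg_mul]
          ring
      _ ≤ _ := by gcongr
  have hint : ∫⁻ y in Metric.ball p (ρ / 2), ENNReal.ofReal (‖f y‖ ^ 2) *
      (ENNReal.ofReal ‖X ⟨0, hn⟩ y‖) ^ (-2 * (n : ℝ)) *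
      (ENNReal.ofReal ‖y - p‖) ^ (-2 * ((n : ℝ) + 3 / 2)) ≠ ⊤ := by
    have hc20 : c2 * (ENNReal.ofReal (Real.exp (-Φ)) * ENNReal.ofReal (Real.exp (-Φ))) ≠ 0 := by
      have e1 : ENNReal.ofReal (Real.exp (-Φ)) ≠ 0 := by
        rw [Ne, ENNReal.ofReal_eq_zero, not_le]; exact Real.exp_pos _
      exact mul_ne_zero (mul_ne_zero (rneg_ne_zero (by positivity) _)
        (rneg_ne_zero (by positivity) _)) (mul_ne_zero e1 e1)
    have hc2t : c2 * (ENNReal.ofReal (Real.exp (-Φ)) * ENNReal.ofReal (Real.exp (-Φ))) ≠ ⊤ :=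
      ENNReal.mul_ne_top (ENNReal.mul_ne_top (rneg_ne_top (by positivity) _)
        (rneg_ne_top (by positivity) _)) (ENNReal.mul_ne_top ENNReal.ofReal_ne_top
          ENNReal.ofReal_ne_top)
    intro htop
    apply hT2
    rw [eq_top_iff]
    calc ⊤ = (c2 * (ENNReal.ofReal (Real.exp (-Φ)) * ENNReal.ofReal (Real.exp (-Φ)))) *
          ∫⁻ y in Metric.ball p (ρ / 2), ENNReal.ofReal (‖f y‖ ^ 2) *
            (ENNReal.ofReal ‖X ⟨0, hn⟩ y‖) ^ (-2 * (n : ℝ)) *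
            (ENNReal.ofReal ‖y - p‖) ^ (-2 * ((n : ℝ) + 3 / 2)) := by
          rw [htop, ENNReal.mul_top hc20]
      _ = ∫⁻ y in Metric.ball p (ρ / 2),
          (c2 * (ENNReal.ofReal (Real.exp (-Φ)) * ENNReal.ofReal (Real.exp (-Φ)))) *
          (ENNReal.ofReal (‖f y‖ ^ 2) *
            (ENNReal.ofReal ‖X ⟨0, hn⟩ y‖) ^ (-2 * (n : ℝ)) *
            (ENNReal.ofReal ‖y - p‖) ^ (-2 * ((n : ℝ) + 3 / 2))) :=
          (lintegral_const_mul' _ _ hc2t).symm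
      _ ≤ ∫⁻ y in Metric.ball p (ρ / 2), (W0 n hn F φ (e.symm y) *
            ENNReal.ofReal (nrm 1 φ (σ - h) (e.symm y))) * ENNReal.ofReal (Real.exp (-φ e y)) :=
          setLIntegral_mono' Metric.isOpen_ball.measurableSet hpt
      _ ≤ _ := lintegral_mono_set (hBK.trans hKe)
  have hfh : HolAt f p := by
    refine Q12.hsub ?_ (hol' hh he hp)
    filter_upwards [Metric.isOpen_ball.mem_nhds (Metric.mem_ball_self hR)] with y hy
    exact hPd.differentiableAt (Metric.isOpen_ball.mem_nhds hy)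
  obtain ⟨g', hg1, hg2, hg3⟩ := l2_div hn hfh (hX ⟨0, hn⟩) (i := ⟨0, hn⟩) (hX1 ⟨0, hn⟩) (c := n)
    (r := ρ / 2) (γ := (n : ℝ) + 3 / 2) (by positivity) (by positivity) hint (m := 2)
    (by push_cast; linarith)
  refine ⟨fun y => l y - g' y, ?_, ?_, h, hh, ?_⟩
  · exact Q12.hsub (Eventually.of_forall fun y => hl y) hg1
  · refine vcongr (vneg hg3) (Eventually.of_forall fun y => ?_)
    ring
  · filter_upwards [hg2] with y hy
    have : h e y = P y - f y := by rw [hfdef]; ring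
    rw [this, hy, hPdef]
    ring

end Q11aux

variable {n : ℕ} {M : Type*} [TopologicalSpace M] [ChartedSpace (E n) M]
  [IsManifold 𝓘(ℂ, E n) ω M]
variable [CompactSpace M] [T2Space M] [ConnectedSpace M]
variable [MeasurableSpace M] [BorelSpace M] {μ : Measure M} {φ : Fam n M ℝ}

open Q11aux in
/-- `n + 1` sections `y_i = X^n g_i` of `-K` where `f_0 = X^{n+1}` is a section of `-K` -/
theorem y_sections (hn : 0 < n) (hφ : IsPos 1 φ) (hμ : IsDens μ φ) (hJ : JetsIso n M)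
    {e : Ch n M} (he : e ∈ atlas (E n) M) {p : E n} (hp : p ∈ e.target) :
    ∃ (X : E n → ℂ) (g : Fin (n + 1) → E n → ℂ), HolAt X p ∧
      VanO (fun y => X y - (y ⟨0, hn⟩ - p ⟨0, hn⟩)) p 2 ∧ (∀ i, HolAt (g i) p) ∧
      VanO (fun y => g 0 y - 1) p 2 ∧ (∀ j : Fin n, VanO (fun y => g j.succ y - (y j - p j)) p 2) ∧
      (∃ f ∈ H0 n M 1, ∀ᶠ y in 𝓝 p, f e y = X y ^ (n + 1)) ∧
      ∀ i, ∃ s ∈ H0 n M 1, ∀ᶠ y in 𝓝 p, s e y = X y ^ n * g i y := by
  obtain ⟨s, X, hs, hX, hX1, hX2⟩ := exists_X hn hJ he hp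
  have hsum : ∀ j : Fin n, ∑ i, (Pi.single j (n + 1) : Fin n → ℕ) i = n + 1 := fun j => by
    rw [Finset.sum_pi_single']; simp
  have hF : ∀ j, s (Pi.single j (n + 1)) ∈ H0 n M 1 := fun j => hs _ (hsum j)
  have hFX : ∀ j, ∀ᶠ y in 𝓝 p, s (Pi.single j (n + 1)) e y = X j y ^ (n + 1) := fun j => by
    filter_upwards [hX2 _ (hsum j)] with y hy
    rw [hy, Finset.prod_eq_single j]
    · rw [Pi.single_eq_same]
    · intro b _ hb
      rw [Pi.single_eq_of_ne hb, pow_zero]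
    · intro h; exact absurd (Finset.mem_univ j) h
  have hl : ∀ i : Fin (n + 1), Differentiable ℂ
      (Fin.cases (fun _ => 1) (fun j y => y j - p j) i : E n → ℂ) := by
    intro i
    refine Fin.cases ?_ (fun j => ?_) i
    · exact differentiable_const _
    · show Differentiable ℂ (fun y : E n => y j - p j)
      fun_prop
  choose g hg1 hg2 hg3 using fun i : Fin (n + 1) =>
    div_section hn hφ hμ he hp (F := fun j => s (Pi.single j (n + 1))) hF hX hX1 hFX (hl i)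
  exact ⟨X ⟨0, hn⟩, g, hX _, hX1 _, hg1, hg2 0, fun j => hg2 j.succ, ⟨_, hF ⟨0, hn⟩, hFX _⟩, hg3⟩

end Pool.Agent.helper63.NU
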