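import Pool.Agent.helper63.NU.Defs3
import Pool.Agent.helper99.NU.Q12
import Pool.Agent.helper80.NU.B4
import Pool.Agent.helper69.NU.B2
import Pool.Agent.helper51.NU.B3
import Pool.Agent.helper41.NU.A3

set_option autoImplicit false
set_option linter.all false

/-! Module Q11, part a: preparations. -/

open MeasureTheory Filter Topology Set
open scoped ContDiff Manifold Matrix ENNReal ComplexOrder

noncomputable section

namespace Pool.Agent.helper63.NU

namespace Q11aux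

section Cn

variable {n : ℕ}

theorem upper_bound {X : Type*} [TopologicalSpace X] {K : Set X} (hK : IsCompact K) {f : X → ℝ}
    (hf : ContinuousOn f K) : ∃ c > 0, ∀ x ∈ K, f x ≤ c := by
  rcases K.eq_empty_or_nonempty with h | h
  · exact ⟨1, one_pos, by simp [h]⟩
  · obtain ⟨q, hq, hmax⟩ := hK.exists_isMaxOn h hf
    exact ⟨max (f q) 1, lt_max_of_lt_right one_pos, fun q' hq' => le_max_of_le_left (hmax hq')⟩

/-- the covectors of norm `≤ A` have bounded norm for the metric `lev ψ` on compact sets -/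
theorem cn_upper {U : Set (E n)} (hU : IsOpen U) {ψ : E n → ℝ} (hψ : ContDiffOn ℝ ∞ ψ U)
    (hp : ∀ y ∈ U, (lev ψ y).PosDef) {K : Set (E n)} (hK : IsCompact K) (hKU : K ⊆ U) (A : ℝ) :
    ∃ C > 0, ∀ y ∈ K, ∀ α : E n, ‖α‖ ≤ A → (cn (lev ψ y) α α).re ≤ C := by
  have hS : IsCompact (K ×ˢ Metric.closedBall (0 : E n) A) := hK.prod (isCompact_closedBall 0 A)
  obtain ⟨C, hC, h⟩ := upper_bound hS (f := fun q : E n × E n => (cn (lev ψ q.1) q.2 q.2).re) (by
    refine Complex.continuous_re.comp_continuousOn ?_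
    unfold cn
    refine continuousOn_finset_sum _ fun j _ => continuousOn_finset_sum _ fun k _ => ?_
    have h1 : ContinuousOn (fun q : E n × E n => (lev ψ q.1)⁻¹ j k)
        (K ×ˢ Metric.closedBall (0 : E n) A) :=
      (contDiffOn_lev_inv hU hψ hp j k).continuousOn.comp continuousOn_fst
        (fun q hq => hKU hq.1)
    refine (ContinuousOn.mul ?_ h1).mul ?_
    · exact ((continuous_apply j).comp continuous_snd).continuousOn
    · exact (Complex.continuous_conj.comp ((continuous_apply k).comp continuous_snd)).continuousOn)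
  exact ⟨C, hC, fun y hy α hα => h (y, α) ⟨hy, by simpa using hα⟩⟩

theorem cn_smul (Θ : Matrix (Fin n) (Fin n) ℂ) (c : ℂ) (α : Fin n → ℂ) :
    (cn Θ (fun j => c * α j) (fun j => c * α j)).re = ‖c‖ ^ 2 * (cn Θ α α).re := by
  have : cn Θ (fun j => c * α j) (fun j => c * α j) = ((‖c‖ ^ 2 : ℝ) : ℂ) * cn Θ α α := by
    unfold cn
    rw [Finset.mul_sum]
    refine Finset.sum_congr rfl fun k _ => ?_
    rw [Finset.mul_sum]
    refine Finset.sum_congr rfl fun j _ => ?_
    have h : ((‖c‖ ^ 2 : ℝ) : ℂ) = c * (starRingEnd ℂ) c := by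
      rw [Complex.mul_conj, Complex.normSq_eq_norm_sq]
    rw [h, map_mul]
    ring
  rw [this, Complex.re_ofReal_mul]

theorem cn_zero (Θ : Matrix (Fin n) (Fin n) ℂ) : cn Θ (fun _ => (0 : ℂ)) (fun _ => 0) = 0 := by
  unfold cn
  simp

end Cn

section Mf

variable {n : ℕ} {M : Type*} [TopologicalSpace M] [ChartedSpace (E n) M]
  [IsManifold 𝓘(ℂ, E n) ω M] {φ : Fam n M ℝ}

open B4aux in
theorem eg_eq (hφ : IsPos 1 φ) {k : ℕ} {s : Fam n M ℂ} (hs : IsSec k s) {e : Ch n M}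
    (he : e ∈ atlas (E n) M) {x : M} (hx : x ∈ e.source) :
    eg k φ s x = (cn (lev (φ e) (e x)) (dbv (s e) (e x)) (dbv (s e) (e x))).re *
      Real.exp (-(k * φ e (e x))) := by
  unfold eg
  set e' := chartAt (E n) x with he'_def
  have he' : e' ∈ atlas (E n) M := chart_mem_atlas (E n) x
  have hx' : x ∈ e'.source := mem_chart_source (E n) x
  have hz := mem_V hx hx'
  have hJ := jac_ne_zero he he' hx hx'
  have hJ3 := pow_ne_zero k hJ
  have h := cn_comp (hφ.pos e he _ hz.1) (hφ.pos e' he' _ (e'.map_source hx'))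
    (D := D e e' (e x)) (c := (jac e e' (e x) ^ k)⁻¹) (d := (jac e e' (e x) ^ k)⁻¹)
    (α := dbv (s e) (e x)) (α' := dbv (s e') (e' x))
    (β := dbv (s e) (e x)) (β' := dbv (s e') (e' x))
    (fun j l => lev_trans hφ.toIsWeight he he' hx hx' j l)
    (fun j => by
      have := dbv_trans hs he he' hx hx' j
      rw [eq_inv_mul_iff_mul_eq₀ hJ3]; exact this)
    (fun j => by
      have := dbv_trans hs he he' hx hx' j
      rw [eq_inv_mul_iff_mul_eq₀ hJ3]; exact this)
  have h2 := exp_near hφ.toIsWeight he he' hz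
  rw [e.left_inv hx] at h2
  have h3 : Real.exp (-(k * φ e (e x))) = (‖jac e e' (e x)‖ ^ (2 * 1)) ^ k *
      Real.exp (-(k * φ e' (e' x))) := by
    have a1 : Real.exp (-(k * φ e (e x))) = Real.exp (-φ e (e x)) ^ k := by
      rw [← Real.exp_nat_mul]; congr 1; ring
    have a2 : Real.exp (-(k * φ e' (e' x))) = Real.exp (-φ e' (e' x)) ^ k := by
      rw [← Real.exp_nat_mul]; congr 1; ring
    rw [a1, a2, h2, mul_pow]
  have h4 : (jac e e' (e x) ^ k)⁻¹ * (starRingEnd ℂ) ((jac e e' (e x) ^ k)⁻¹) =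
      (((‖jac e e' (e x)‖ ^ (2 * 1)) ^ k : ℝ)⁻¹ : ℝ) := by
    rw [Complex.mul_conj, Complex.normSq_eq_norm_sq, norm_inv, norm_pow]
    congr 1
    rw [inv_pow]
    congr 1
    ring
  have h5 : (0 : ℝ) < (‖jac e e' (e x)‖ ^ (2 * 1)) ^ k := by
    have := norm_pos_iff.2 hJ
    positivity
  rw [h, h4, Complex.re_ofReal_mul, h3]
  field_simp

variable [T2Space M]

omit [IsManifold 𝓘(ℂ, E n) ω M] in
theorem isClosed_image {e : Ch n M} {B : Set (E n)} (hB : IsCompact B) (hBe : B ⊆ e.target) :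
    IsClosed (e.symm '' B) :=
  (hB.image_of_continuousOn (e.continuousOn_symm.mono hBe)).isClosed

omit [IsManifold 𝓘(ℂ, E n) ω M] [T2Space M] [ChartedSpace (E n) M] in
theorem ext_zero (k : ℕ) {e : Ch n M} {u : E n → ℂ} {B : Set (E n)} (hu : tsupport u ⊆ B)
    {e' : Ch n M} {y : E n} (hy : e'.symm y ∉ e.symm '' B) :
    (ext k e u : Fam n M ℂ) e' y = 0 := by
  unfold ext
  split_ifs with h
  · have : u (e (e'.symm y)) = 0 := by
      apply image_eq_zero_of_notMem_tsupport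
      intro h'
      exact hy ⟨_, hu h', e.left_inv h.2⟩
    rw [this, mul_zero]
  · rfl

omit [IsManifold 𝓘(ℂ, E n) ω M] in
/-- `eg` vanishes away from the support -/
theorem eg_ext_zero (k : ℕ) {e : Ch n M} {u : E n → ℂ} {B : Set (E n)} (hB : IsCompact B)
    (hBe : B ⊆ e.target) (hu : tsupport u ⊆ B) {x : M} (hx : x ∉ e.symm '' B) :
    eg k φ (ext k e u) x = 0 := by
  unfold eg
  set e' := chartAt (E n) x with he'_def
  have hx' : x ∈ e'.source := mem_chart_source (E n) x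
  have h1 : ∀ᶠ y in 𝓝 (e' x), e'.symm y ∉ e.symm '' B := by
    have hc : ContinuousAt e'.symm (e' x) := e'.continuousAt_symm (e'.map_source hx')
    have ho : (e.symm '' B)ᶜ ∈ 𝓝 (e'.symm (e' x)) := by
      rw [e'.left_inv hx']
      exact (isClosed_image hB hBe).isOpen_compl.mem_nhds hx
    exact hc.eventually_mem ho
  have h2 : (ext k e u : Fam n M ℂ) e' =ᶠ[𝓝 (e' x)] fun _ => 0 := by
    filter_upwards [h1] with y hy
    exact ext_zero k hu hy
  have h3 : dbv ((ext k e u : Fam n M ℂ) e') (e' x) = fun _ => 0 := by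
    funext j
    unfold dbv
    rw [db_congr h2 j, db_const]
  rw [h3, cn_zero]
  simp

end Mf

section En

theorem rneg_le {x y : ℝ≥0∞} (h : x ≤ y) {α : ℝ} (hα : 0 ≤ α) : y ^ (-α) ≤ x ^ (-α) := by
  rw [ENNReal.rpow_neg, ENNReal.rpow_neg]
  exact ENNReal.inv_le_inv.2 (ENNReal.rpow_le_rpow h hα)

theorem rmul (c u : ℝ) (hc : 0 ≤ c) (hu : 0 ≤ u) (m : ℕ) (α : ℝ) :
    (ENNReal.ofReal (c * u ^ m)) ^ (-α) =
      (ENNReal.ofReal c) ^ (-α) * (ENNReal.ofReal u) ^ (-(m * α)) := by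
  rw [ENNReal.ofReal_mul hc, ENNReal.mul_rpow_of_ne_top ENNReal.ofReal_ne_top ENNReal.ofReal_ne_top,
    ENNReal.ofReal_pow hu, ← ENNReal.rpow_natCast, ← ENNReal.rpow_mul]
  congr 2
  ring

theorem rneg_ne_top {c : ℝ} (hc : 0 < c) (α : ℝ) : (ENNReal.ofReal c) ^ (-α) ≠ ⊤ := by
  rw [ENNReal.ofReal_rpow_of_pos hc]
  exact ENNReal.ofReal_ne_top

theorem rneg_ne_zero {c : ℝ} (hc : 0 < c) (α : ℝ) : (ENNReal.ofReal c) ^ (-α) ≠ 0 := by
  rw [ENNReal.ofReal_rpow_of_pos hc, Ne, ENNReal.ofReal_eq_zero, not_le]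
  exact Real.rpow_pos_of_pos hc _

theorem cancel_le (u : ℝ≥0∞) (α : ℝ) : u ^ (-α) * u ^ α ≤ 1 := by
  rw [ENNReal.rpow_neg]
  exact ENNReal.inv_mul_le_one _

end En

end Q11aux

end Pool.Agent.helper63.NU
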