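import Pool.Agent.helper4.NU.Q11a
import Pool.Agent.helper80.NU.Q10

set_option autoImplicit false
set_option linter.all false

/-! Module Q11, part b: the sections `s β` and their roots. -/

open MeasureTheory Filter Topology Set
open scoped ContDiff Manifold Matrix ENNReal ComplexOrder

noncomputable section

namespace Pool.Agent.helper63.NU

namespace Q11aux

open Q12

section VO

variable {n : ℕ} {p : E n}

theorem vprodd {d m : ℕ} (F G : Fin m → E n → ℂ) (hG : ∀ j, VanO (G j) p d)
    (hFG : ∀ j, VanO (fun y => F j y - G j y) p (d + 1)) :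
    VanO (fun y => ∏ j, F j y) p (d * m) ∧
      VanO (fun y => ∏ j, F j y - ∏ j, G j y) p (d * m + 1) := by
  induction m with
  | zero =>
    refine ⟨by simpa using vone, ?_⟩
    simpa using vzero
  | succ m ih =>
    obtain ⟨h1, h2⟩ := ih (fun j => F j.succ) (fun j => G j.succ) (fun j => hG _) (fun j => hFG _)
    have h3 : VanO (F 0) p d := by
      have := vadd (vmono (hFG 0) (Nat.le_succ d)) (hG 0)
      exact vcongr this (Eventually.of_forall fun y => sub_add_cancel _ _)
    have h4 : VanO (fun y => F 0 y * ∏ j : Fin m, F j.succ y) p (d * (m + 1)) := by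
      have := vmul h3 h1
      rwa [show d + d * m = d * (m + 1) by ring] at this
    have h5 : VanO (fun y => (F 0 y - G 0 y) * ∏ j : Fin m, F j.succ y) p (d * (m + 1) + 1) := by
      have := vmul (hFG 0) h1
      rwa [show d + 1 + d * m = d * (m + 1) + 1 by ring] at this
    have h6 : VanO (fun y => G 0 y * (∏ j : Fin m, F j.succ y - ∏ j : Fin m, G j.succ y)) p
        (d * (m + 1) + 1) := by
      have := vmul (hG 0) h2
      rwa [show d + (d * m + 1) = d * (m + 1) + 1 by ring] at this
    refine ⟨vcongr h4 (Eventually.of_forall fun y =>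
      (Fin.prod_univ_succ (fun j => F j y)).symm), ?_⟩
    refine vcongr (vadd h5 h6) (Eventually.of_forall fun y => ?_)
    simp only [Fin.prod_univ_succ]
    ring

theorem vprods {ι : Type*} (s : Finset ι) (F : ι → E n → ℂ) (m : ι → ℕ)
    (h : ∀ i ∈ s, VanO (F i) p (m i)) : VanO (fun y => ∏ i ∈ s, F i y) p (∑ i ∈ s, m i) := by
  classical
  induction s using Finset.induction_on with
  | empty => simpa using vone
  | insert a s ha ih =>
    have h1 := vmul (h a (Finset.mem_insert_self a s))
      (ih fun i hi => h i (Finset.mem_insert_of_mem hi))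
    rw [Finset.sum_insert ha]
    exact vcongr h1 (Eventually.of_forall fun y =>
      (Finset.prod_insert (f := fun i => F i y) ha).symm)

theorem vmon (β : Fin n → ℕ) : VanO (fun y : E n => ∏ i, (y i - p i) ^ β i) p (∑ i, β i) := by
  refine vprods Finset.univ (fun i y => (y i - p i) ^ β i) β fun i _ => ?_
  have := vpow (vcoord (p := p) i) (β i)
  rwa [mul_one] at this

theorem hmon (β : Fin n → ℕ) : HolAt (fun y : E n => ∏ i, (y i - p i) ^ β i) p := by
  refine hprod Finset.univ (F := fun i y => (y i - p i) ^ β i) fun i _ => ?_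
  refine hpow (f := fun y : E n => y i - p i) ?_ (β i)
  exact Eventually.of_forall fun y => (differentiableAt_apply i y).sub_const _

theorem mon_prod {r : ℕ} (γ : Fin r → Fin n → ℕ) (z : Fin n → ℂ) :
    ∏ i, ∏ j, z j ^ γ i j = ∏ j, z j ^ (∑ i, γ i) j := by
  rw [Finset.prod_comm]
  refine Finset.prod_congr rfl fun j _ => ?_
  rw [Finset.prod_pow_eq_pow_sum, Finset.sum_apply]

end VO

variable {n : ℕ} {M : Type*} [TopologicalSpace M] [ChartedSpace (E n) M]
  [IsManifold 𝓘(ℂ, E n) ω M]

theorem exists_X (hn : 0 < n) (hJ : JetsIso n M) {e : Ch n M} (he : e ∈ atlas (E n) M) {p : E n}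
    (hp : p ∈ e.target) :
    ∃ (s : (Fin n → ℕ) → Fam n M ℂ) (X : Fin n → E n → ℂ),
      (∀ β, ∑ i, β i = n + 1 → s β ∈ H0 n M 1) ∧ (∀ j, HolAt (X j) p) ∧
      (∀ j, VanO (fun y => X j y - (y j - p j)) p 2) ∧
      ∀ β, ∑ i, β i = n + 1 → ∀ᶠ y in 𝓝 p, s β e y = ∏ j, X j y ^ β j := by
  have h1 : ∀ β : Fin n → ℕ, ∃ s ∈ H0 n M 1,
      VanO (fun y => s e y - ∏ i, (y i - p i) ^ β i) p (n + 1 + 1) := by
    intro β
    obtain ⟨s, hs, hs'⟩ := (hJ 1 le_rfl e he p hp).2 _ (hmon (p := p) β)
    exact ⟨s, hs, by simpa using hs'⟩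
  choose s hs hs' using h1
  obtain ⟨X, hX, hX1, hX2⟩ := roots hn (Nat.succ_pos n) (U := e.target) e.open_target hp
    (s := fun β => s β e) (fun β _ => (hs β).1.hol e he) (fun β _ => hs' β) (by
      intro r γ γ' hγ hγ' hsum y hy
      cases r with
      | zero => simp
      | succ r =>
        have hmem : (∏ i, s (γ i)) - ∏ i, s (γ' i) ∈ H0 n M ((r + 1) * 1) :=
          sub_mem (prod_mem' r _ fun j => hs _) (prod_mem' r _ fun j => hs _)
        have hv : ∀ δ : Fin (r + 1) → Fin n → ℕ, (∀ i, ∑ j, δ i j = n + 1) →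
            VanO (fun y => ∏ i, s (δ i) e y - ∏ i, ∏ j, (y j - p j) ^ δ i j) p
              ((n + 1) * (r + 1) + 1) := by
          intro δ hδ
          refine (vprodd (d := n + 1) (fun i => s (δ i) e) (fun i y => ∏ j, (y j - p j) ^ δ i j)
            (fun i => ?_) fun i => hs' _).2
          have := vmon (p := p) (δ i)
          rwa [hδ i] at this
        have h2 := vsub (hv γ hγ) (hv γ' hγ')
        have h3 : VanO (((∏ i, s (γ i)) - ∏ i, s (γ' i)) e) p ((n + 1) * ((r + 1) * 1) + 1) := by
          rw [mul_one]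
          refine vcongr h2 (Eventually.of_forall fun y => ?_)
          show _ = (∏ i, s (γ i)) e y - (∏ i, s (γ' i)) e y
          rw [prod_apply', prod_apply']
          dsimp only
          rw [mon_prod γ (fun j => y j - p j), mon_prod γ' (fun j => y j - p j), hsum]
          ring
        have h4 := (hJ ((r + 1) * 1) (by omega) e he p hp).1 _ hmem h3
        have h5 := congrFun (congrFun h4 e) y
        rw [Pi.sub_apply, Pi.sub_apply, prod_apply', prod_apply', Pi.zero_apply, Pi.zero_apply,
          sub_eq_zero] at h5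
        exact h5)
  exact ⟨s, X, fun β _ => hs β, hX, hX1, hX2⟩

end Q11aux

end Pool.Agent.helper63.NU
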